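import Mathlib

/-!
# Largest sets in which no element divides two others: convergence (helper822)

Combinatorial part: comparison of `f n` with the sums over the `y`-rough numbers.
-/

set_option autoImplicit false

namespace Pool.Agent.H822K

open Finset

/-- no three distinct elements `a, b, c` of `A` with `a ∣ b` and `a ∣ c` -/
def Admissible (A : Finset ℕ) : Prop :=
  ∀ a ∈ A, ∀ b ∈ A, ∀ c ∈ A, a ≠ b → a ≠ c → b ≠ c → ¬ (a ∣ b ∧ a ∣ c)

open Classical in
/-- the largest cardinality of an admissible subset of `S` -/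
noncomputable def maxAdm (S : Finset ℕ) : ℕ :=
  (S.powerset.filter Admissible).sup Finset.card

theorem le_maxAdm {A S : Finset ℕ} (h : A ⊆ S) (hA : Admissible A) : A.card ≤ maxAdm S := by
  classical
  unfold maxAdm
  exact Finset.le_sup (f := Finset.card) (by simp [h, hA])

theorem exists_maxAdm (S : Finset ℕ) : ∃ A ⊆ S, Admissible A ∧ A.card = maxAdm S := by
  classical
  have hne : (S.powerset.filter Admissible).Nonempty :=
    ⟨∅, by simp [Admissible]⟩
  obtain ⟨A, hA, h⟩ := Finset.exists_mem_eq_sup _ hne Finset.card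
  rw [Finset.mem_filter, Finset.mem_powerset] at hA
  exact ⟨A, hA.1, hA.2, h.symm⟩

theorem Admissible.subset {A B : Finset ℕ} (hB : Admissible B) (h : A ⊆ B) : Admissible A :=
  fun a ha b hb c hc => hB a (h ha) b (h hb) c (h hc)

theorem maxAdm_mono {S T : Finset ℕ} (h : S ⊆ T) : maxAdm S ≤ maxAdm T := by
  obtain ⟨A, hA, hA', h'⟩ := exists_maxAdm S
  rw [← h']
  exact le_maxAdm (hA.trans h) hA'

theorem maxAdm_le_card (S : Finset ℕ) : maxAdm S ≤ S.card := by
  obtain ⟨A, hA, hA', h'⟩ := exists_maxAdm S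
  rw [← h']
  exact Finset.card_le_card hA

theorem maxAdm_union_le (S T : Finset ℕ) : maxAdm (S ∪ T) ≤ maxAdm S + T.card := by
  obtain ⟨A, hA, hA', h'⟩ := exists_maxAdm (S ∪ T)
  rw [← h']
  have h1 : (A ∩ S).card ≤ maxAdm S :=
    le_maxAdm Finset.inter_subset_right (hA'.subset Finset.inter_subset_left)
  have h2 : (A \ S).card ≤ T.card := by
    apply Finset.card_le_card
    intro x hx
    rw [Finset.mem_sdiff] at hx
    have := hA hx.1
    rw [Finset.mem_union] at this
    tauto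
  have h3 := Finset.card_inter_add_card_sdiff A S
  omega

/-- transfer of admissibility along a map that reflects divisibility -/
theorem card_le_maxAdm_of_map {A S : Finset ℕ} (hA : Admissible A) (g : ℕ → ℕ)
    (hg : ∀ a ∈ A, g a ∈ S) (hinj : ∀ a ∈ A, ∀ b ∈ A, g a = g b → a = b)
    (hdvd : ∀ a ∈ A, ∀ b ∈ A, g a ∣ g b → a ∣ b) : A.card ≤ maxAdm S := by
  classical
  have h1 : (A.image g).card = A.card := Finset.card_image_of_injOn
    (fun a ha b hb hab => hinj a ha b hb hab)
  rw [← h1]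
  apply le_maxAdm
  · intro x hx
    obtain ⟨a, ha, rfl⟩ := Finset.mem_image.1 hx
    exact hg a ha
  · intro x hx u hu v hv h1 h2 h3 h4
    obtain ⟨a, ha, rfl⟩ := Finset.mem_image.1 hx
    obtain ⟨b, hb, rfl⟩ := Finset.mem_image.1 hu
    obtain ⟨c, hc, rfl⟩ := Finset.mem_image.1 hv
    exact hA a ha b hb c hc (fun h => h1 (by rw [h])) (fun h => h2 (by rw [h]))
      (fun h => h3 (by rw [h])) ⟨hdvd a ha b hb h4.1, hdvd a ha c hc h4.2⟩

/-! ### smooth and rough parts -/

/-- the `y`-rough numbers -/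
def Rough (y m : ℕ) : Prop := ∀ p, p.Prime → p ∣ m → y ≤ p

noncomputable instance (y : ℕ) : DecidablePred (Rough y) := fun _ => Classical.propDecidable _

/-- the smooth part -/
def sp (y n : ℕ) : ℕ := (n.primeFactorsList.filter (· < y)).prod

/-- the rough part -/
def rp (y n : ℕ) : ℕ := (n.primeFactorsList.filter (fun p => ¬ p < y)).prod

theorem rp_mul_sp {y n : ℕ} (hn : n ≠ 0) : rp y n * sp y n = n := by
  unfold rp sp
  have h := List.prod_map_filter_mul_prod_map_filter_not (fun p : ℕ => p < y) (fun p : ℕ => p)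
    n.primeFactorsList
  simp only [List.map_id'] at h
  rw [mul_comm]
  rw [h]
  exact Nat.prod_primeFactorsList hn

theorem sp_mem (y n : ℕ) : sp y n ∈ Nat.smoothNumbers y := Nat.prod_mem_smoothNumbers n y

theorem sp_ne_zero (y n : ℕ) : sp y n ≠ 0 := Nat.ne_zero_of_mem_smoothNumbers (sp_mem y n)

theorem rp_ne_zero {y n : ℕ} (hn : n ≠ 0) : rp y n ≠ 0 := by
  intro h
  have := rp_mul_sp (y := y) hn
  rw [h, zero_mul] at this
  exact hn this.symm

theorem rp_rough (y n : ℕ) : Rough y (rp y n) := by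
  intro p hp hpd
  unfold rp at hpd
  rw [Prime.dvd_prod_iff hp.prime] at hpd
  obtain ⟨q, hq, hpq⟩ := hpd
  rw [List.mem_filter] at hq
  have hq' := Nat.prime_of_mem_primeFactorsList hq.1
  rw [(Nat.prime_dvd_prime_iff_eq hp hq').1 hpq]
  simpa using hq.2

theorem coprime_rough_smooth {y m k : ℕ} (hm : Rough y m) (hk : k ∈ Nat.smoothNumbers y) :
    Nat.Coprime m k := by
  apply Nat.coprime_of_dvd
  intro p hp h1 h2
  have := hm p hp h1
  have := Nat.mem_smoothNumbers'.1 hk p hp h2
  omega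

theorem unique_parts {y m k m' k' : ℕ} (hm : Rough y m) (hk : k ∈ Nat.smoothNumbers y)
    (hm' : Rough y m') (hk' : k' ∈ Nat.smoothNumbers y) (h : m * k = m' * k') :
    m = m' ∧ k = k' := by
  have h1 : m ∣ m' := (coprime_rough_smooth hm hk').dvd_of_dvd_mul_right (h ▸ Dvd.intro _ rfl)
  have h2 : m' ∣ m := (coprime_rough_smooth hm' hk).dvd_of_dvd_mul_right (h ▸ Dvd.intro _ rfl)
  have h3 : k ∣ k' := (coprime_rough_smooth hm' hk).symm.dvd_of_dvd_mul_left
    (h ▸ Dvd.intro_left _ rfl)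
  have h4 : k' ∣ k := (coprime_rough_smooth hm hk').symm.dvd_of_dvd_mul_left
    (h ▸ Dvd.intro_left _ rfl)
  exact ⟨Nat.dvd_antisymm h1 h2, Nat.dvd_antisymm h3 h4⟩

theorem parts_mul {y m k : ℕ} (hm : Rough y m) (hk : k ∈ Nat.smoothNumbers y) (hm0 : m ≠ 0) :
    rp y (m * k) = m ∧ sp y (m * k) = k := by
  have h0 : m * k ≠ 0 := mul_ne_zero hm0 (Nat.ne_zero_of_mem_smoothNumbers hk)
  exact unique_parts (rp_rough y _) (sp_mem y _) hm hk (rp_mul_sp h0)

/-- multiplying by a smooth number does not change the rough part -/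
theorem rp_mul_smooth {y n j : ℕ} (hn : n ≠ 0) (hj : j ∈ Nat.smoothNumbers y) :
    rp y (n * j) = rp y n ∧ sp y (n * j) = sp y n * j := by
  have h := parts_mul (rp_rough y n) (Nat.mul_mem_smoothNumbers (sp_mem y n) hj)
    (rp_ne_zero hn)
  rw [← mul_assoc, rp_mul_sp hn] at h
  exact h

/-! ### the two comparisons -/

/-- the largest size of an admissible set of `y`-smooth numbers up to `t` -/
noncomputable def hs (y t : ℕ) : ℕ := maxAdm (Nat.smoothNumbersUpTo t y)

/-- the sum of `hs y (n / m)` over the `y`-rough numbers `m ≤ n` -/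
noncomputable def GG (y n : ℕ) : ℕ := ∑ m ∈ (Icc 1 n).filter (Rough y), hs y (n / m)

theorem mem_smoothUpTo {t y k : ℕ} :
    k ∈ Nat.smoothNumbersUpTo t y ↔ k ≤ t ∧ k ∈ Nat.smoothNumbers y :=
  Nat.mem_smoothNumbersUpTo

theorem le_GG (y n : ℕ) : maxAdm (Icc 1 n) ≤ GG y n := by
  classical
  obtain ⟨A, hA, hA', h'⟩ := exists_maxAdm (Icc 1 n)
  rw [← h']
  have h1 : ∀ a ∈ A, a ≠ 0 ∧ a ≤ n := by
    intro a ha
    have := Finset.mem_Icc.1 (hA ha)
    exact ⟨by omega, this.2⟩
  have h2 : ∀ a ∈ A, rp y a ∈ (Icc 1 n).filter (Rough y) := by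
    intro a ha
    obtain ⟨h0, hn⟩ := h1 a ha
    rw [Finset.mem_filter, Finset.mem_Icc]
    refine ⟨⟨Nat.one_le_iff_ne_zero.2 (rp_ne_zero h0), ?_⟩, rp_rough y a⟩
    refine le_trans ?_ hn
    exact Nat.le_of_dvd (Nat.pos_of_ne_zero h0) (Dvd.intro _ (rp_mul_sp h0))
  rw [Finset.card_eq_sum_card_fiberwise h2]
  unfold GG
  apply Finset.sum_le_sum
  intro m hm
  rw [Finset.mem_filter, Finset.mem_Icc] at hm
  have key : ∀ a ∈ A.filter (fun a => rp y a = m), m * sp y a = a := by
    intro a ha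
    rw [Finset.mem_filter] at ha
    rw [← ha.2]
    exact rp_mul_sp (h1 a ha.1).1
  apply card_le_maxAdm_of_map (hA'.subset (Finset.filter_subset _ _)) (sp y)
  · intro a ha
    rw [mem_smoothUpTo]
    refine ⟨?_, sp_mem y a⟩
    rw [Nat.le_div_iff_mul_le (by omega), mul_comm, key a ha]
    exact (h1 a (Finset.mem_filter.1 ha).1).2
  · intro a ha b hb hab
    rw [← key a ha, ← key b hb, hab]
  · intro a ha b hb hab
    rw [← key a ha, ← key b hb]
    exact mul_dvd_mul_left m hab

theorem GG_le (y n : ℕ) (hy : 1 ≤ y) : GG y n ≤ maxAdm (Icc 1 n) + n / y := by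
  classical
  choose B hB1 hB2 hB3 using fun t => exists_maxAdm (Nat.smoothNumbersUpTo t y)
  set A : Finset ℕ := (Icc 1 n).filter (fun a => sp y a ∈ B (n / rp y a)) with hA
  have hAn : ∀ a ∈ A, a ≠ 0 ∧ a ≤ n := by
    intro a ha
    rw [hA, Finset.mem_filter, Finset.mem_Icc] at ha
    exact ⟨by omega, ha.1.2⟩
  have h2 : ∀ a ∈ A, rp y a ∈ (Icc 1 n).filter (Rough y) := by
    intro a ha
    obtain ⟨h0, hn⟩ := hAn a ha
    rw [Finset.mem_filter, Finset.mem_Icc]
    refine ⟨⟨Nat.one_le_iff_ne_zero.2 (rp_ne_zero h0), ?_⟩, rp_rough y a⟩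
    refine le_trans ?_ hn
    exact Nat.le_of_dvd (Nat.pos_of_ne_zero h0) (Dvd.intro _ (rp_mul_sp h0))
  have hcard : A.card = GG y n := by
    rw [Finset.card_eq_sum_card_fiberwise h2]
    unfold GG
    apply Finset.sum_congr rfl
    intro m hm
    rw [Finset.mem_filter, Finset.mem_Icc] at hm
    have e : A.filter (fun a => rp y a = m) = (B (n / m)).image (fun k => m * k) := by
      ext a
      rw [Finset.mem_filter, Finset.mem_image, hA, Finset.mem_filter, Finset.mem_Icc]
      constructor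
      · rintro ⟨⟨⟨h1, h2⟩, h3⟩, h4⟩
        refine ⟨sp y a, ?_, ?_⟩
        · rw [h4] at h3; exact h3
        · rw [← h4]; exact rp_mul_sp (by omega)
      · rintro ⟨k, hk, rfl⟩
        have hk' := mem_smoothUpTo.1 (hB1 _ hk)
        obtain ⟨e1, e2⟩ := parts_mul hm.2 hk'.2 (by omega : m ≠ 0)
        rw [e1, e2]
        refine ⟨⟨⟨?_, ?_⟩, hk⟩, rfl⟩
        · exact Nat.one_le_iff_ne_zero.2 (mul_ne_zero (by omega)
            (Nat.ne_zero_of_mem_smoothNumbers hk'.2))
        · have := hk'.1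
          rw [Nat.le_div_iff_mul_le (by omega), mul_comm] at this
          exact this
    rw [e, Finset.card_image_of_injective _ (fun a b hab => by
      exact Nat.eq_of_mul_eq_mul_left (by omega : 0 < m) hab)]
    exact hB3 (n / m)
  rw [← hcard]
  have hadm : Admissible (A \ Icc 1 (n / y)) := by
    intro a ha b hb c hc hab hac hbc hd
    rw [Finset.mem_sdiff] at ha hb hc
    obtain ⟨ha0, han⟩ := hAn a ha.1
    have hbig : n < a * y := by
      by_contra hcon
      apply ha.2
      rw [Finset.mem_Icc, Nat.le_div_iff_mul_le (by omega)]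
      omega
    have main : ∀ b ∈ A, a ∣ b → ∃ j ∈ Nat.smoothNumbers y, b = a * j := by
      intro b hb hab
      obtain ⟨j, rfl⟩ := hab
      obtain ⟨h0, hn⟩ := hAn _ hb
      refine ⟨j, Nat.mem_smoothNumbers_of_lt ?_ ?_, rfl⟩
      · exact Nat.pos_of_ne_zero (by rintro rfl; simp at h0)
      · by_contra hcon
        have : a * y ≤ a * j := Nat.mul_le_mul_left a (by omega)
        omega
    obtain ⟨j, hj, rfl⟩ := main b hb.1 hd.1
    obtain ⟨i, hi, rfl⟩ := main c hc.1 hd.2
    obtain ⟨ej1, ej2⟩ := rp_mul_smooth ha0 hj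
    obtain ⟨ei1, ei2⟩ := rp_mul_smooth ha0 hi
    have ha' := ha.1
    have hb' := hb.1
    have hc' := hc.1
    rw [hA, Finset.mem_filter] at ha' hb' hc'
    rw [ej1, ej2] at hb'
    rw [ei1, ei2] at hc'
    refine hB2 (n / rp y a) (sp y a) ha'.2 (sp y a * j) hb'.2 (sp y a * i) hc'.2 ?_ ?_ ?_
      ⟨Dvd.intro _ rfl, Dvd.intro _ rfl⟩
    · intro h
      apply hab
      have : rp y a * sp y a = rp y a * (sp y a * j) := by rw [← h]
      rw [← mul_assoc, rp_mul_sp ha0] at this
      exact this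
    · intro h
      apply hac
      have : rp y a * sp y a = rp y a * (sp y a * i) := by rw [← h]
      rw [← mul_assoc, rp_mul_sp ha0] at this
      exact this
    · intro h
      apply hbc
      have : rp y a * (sp y a * j) = rp y a * (sp y a * i) := by rw [← h]
      rw [← mul_assoc, ← mul_assoc, rp_mul_sp ha0] at this
      exact this
  have h3 : (A \ Icc 1 (n / y)).card ≤ maxAdm (Icc 1 n) :=
    le_maxAdm (Finset.sdiff_subset.trans (Finset.filter_subset _ _)) hadm
  have h4 := Finset.card_inter_add_card_sdiff A (Icc 1 (n / y))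
  have h5 : (A ∩ Icc 1 (n / y)).card ≤ n / y := by
    refine (Finset.card_le_card Finset.inter_subset_right).trans ?_
    rw [Nat.card_Icc, Nat.add_sub_cancel]
  omega

end Pool.Agent.H822K
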