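import Pool.Agent.H822K.Base

/-!
# A verified dynamic programme bounding `maxAdm` from above (helper822)

A state is a triple `(I, J, v)`: `I` and `J` are bit masks of indices of chosen elements, `J` those
which already have a chosen proper multiple, and `v` is the number of chosen elements.
-/

set_option autoImplicit false

namespace Pool.Agent.H822K

open Finset

/-- `t` dominates `s`: it is less restrictive and has at least the same value -/
def dom (s t : ℕ × ℕ × ℕ) : Bool :=
  cond (Nat.beq (Nat.land t.1 s.1) t.1)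
    (cond (Nat.beq (Nat.land t.2.1 s.2.1) t.2.1) (Nat.ble s.2.2 t.2.2) false) false

/-- is `s` dominated by a member of the list? -/
def domAny (s : ℕ × ℕ × ℕ) : List (ℕ × ℕ × ℕ) → Bool
  | [] => false
  | t :: L => cond (dom s t) true (domAny s L)

/-- remove the states dominated by `s` -/
def rmv (s : ℕ × ℕ × ℕ) : List (ℕ × ℕ × ℕ) → List (ℕ × ℕ × ℕ)
  | [] => []
  | t :: L => cond (dom t s) (rmv s L) (t :: rmv s L)

/-- insert a state, with pruning -/
def ins (s : ℕ × ℕ × ℕ) (L : List (ℕ × ℕ × ℕ)) : List (ℕ × ℕ × ℕ) :=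
  cond (domAny s L) L (s :: rmv s L)

/-- at most one bit set -/
def le1 (x : ℕ) : Bool := cond (Nat.beq x 0) true (Nat.beq x (Nat.pow 2 (Nat.log2 x)))

/-- process one element, from one state -/
def stepOne (i m d aI aJ : ℕ) (s : ℕ × ℕ × ℕ) (acc : List (ℕ × ℕ × ℕ)) : List (ℕ × ℕ × ℕ) :=
  cond (cond (le1 (Nat.land s.1 m)) (Nat.beq (Nat.land s.2.1 d) 0) false)
    (ins (Nat.land (Nat.lor s.1 (Nat.pow 2 i)) aI,
      Nat.land (Nat.lor (Nat.lor s.2.1 (Nat.land s.1 d))
        (cond (Nat.beq (Nat.land s.1 m) 0) 0 (Nat.pow 2 i))) aJ, Nat.succ s.2.2)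
      (ins (Nat.land s.1 aI, Nat.land s.2.1 aJ, s.2.2) acc))
    (ins (Nat.land s.1 aI, Nat.land s.2.1 aJ, s.2.2) acc)

/-- process one element -/
def stepAll (i m d aI aJ : ℕ) : List (ℕ × ℕ × ℕ) → List (ℕ × ℕ × ℕ)
  | [] => []
  | s :: L => stepOne i m d aI aJ s (stepAll i m d aI aJ L)

/-- the elements that still matter -/
def actI : List (ℕ × ℕ × ℕ) → ℕ
  | [] => 0
  | it :: L => Nat.lor (Nat.lor it.2.1 it.2.2) (actI L)

/-- the flags that still matter -/
def actJ : List (ℕ × ℕ × ℕ) → ℕ
  | [] => 0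
  | it :: L => Nat.lor it.2.2 (actJ L)

/-- the dynamic programme; an item is `(i, m, d)`: index, mask of multiples, mask of divisors -/
def run : List (ℕ × ℕ × ℕ) → List (ℕ × ℕ × ℕ) → List (ℕ × ℕ × ℕ)
  | [], S => S
  | it :: rest, S => run rest (stepAll it.1 it.2.1 it.2.2 (actI rest) (actJ rest) S)

/-- all the values are at most `b` -/
def allLe (b : ℕ) : List (ℕ × ℕ × ℕ) → Bool
  | [] => true
  | s :: L => cond (Nat.ble s.2.2 b) (allLe b L) false

/-! ### soundness -/

theorem dom_iff {s t : ℕ × ℕ × ℕ} (h : dom s t = true) :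
    (t.1 &&& s.1 = t.1) ∧ (t.2.1 &&& s.2.1 = t.2.1) ∧ s.2.2 ≤ t.2.2 := by
  unfold dom at h
  cases h1 : Nat.beq (Nat.land t.1 s.1) t.1 with
  | false => rw [h1] at h; simp at h
  | true =>
    cases h2 : Nat.beq (Nat.land t.2.1 s.2.1) t.2.1 with
    | false => rw [h1, h2] at h; simp at h
    | true =>
      rw [h1, h2] at h
      simp only [cond_true] at h
      exact ⟨Nat.eq_of_beq_eq_true h1, Nat.eq_of_beq_eq_true h2, Nat.le_of_ble_eq_true h⟩

/-- properties of states stable under domination -/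
def Stable (V : ℕ × ℕ × ℕ → Prop) : Prop := ∀ s t, dom s t = true → V s → V t

theorem domAny_sound {V : ℕ × ℕ × ℕ → Prop} (hV : Stable V) {s : ℕ × ℕ × ℕ} (hs : V s) :
    ∀ L, domAny s L = true → ∃ t ∈ L, V t
  | [], h => by simp [domAny] at h
  | t :: L, h => by
    unfold domAny at h
    cases h1 : dom s t with
    | true => exact ⟨t, by simp, hV s t h1 hs⟩
    | false =>
      rw [h1] at h
      obtain ⟨u, hu, hu'⟩ := domAny_sound hV hs L h
      exact ⟨u, by simp [hu], hu'⟩

theorem rmv_sound {V : ℕ × ℕ × ℕ → Prop} (hV : Stable V) {s : ℕ × ℕ × ℕ} :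
    ∀ L, (∃ t ∈ L, V t) → V s ∨ ∃ t ∈ rmv s L, V t
  | [], ⟨t, ht, _⟩ => by simp at ht
  | t :: L, ⟨u, hu, hVu⟩ => by
    unfold rmv
    rw [List.mem_cons] at hu
    cases h1 : dom t s with
    | true =>
      rcases hu with rfl | hu
      · exact Or.inl (hV _ _ h1 hVu)
      · simpa using rmv_sound hV L ⟨u, hu, hVu⟩
    | false =>
      simp only [cond_false]
      rcases hu with rfl | hu
      · exact Or.inr ⟨u, by simp, hVu⟩
      · rcases rmv_sound hV L ⟨u, hu, hVu⟩ with h | ⟨w, hw, hVw⟩
        · exact Or.inl h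
        · exact Or.inr ⟨w, by simp [hw], hVw⟩

theorem ins_sound {V : ℕ × ℕ × ℕ → Prop} (hV : Stable V) (s : ℕ × ℕ × ℕ)
    (L : List (ℕ × ℕ × ℕ)) (h : V s ∨ ∃ t ∈ L, V t) : ∃ t ∈ ins s L, V t := by
  unfold ins
  cases h1 : domAny s L with
  | true =>
    simp only [cond_true]
    rcases h with h | h
    · exact domAny_sound hV h L h1
    · exact h
  | false =>
    simp only [cond_false]
    rcases h with h | h
    · exact ⟨s, by simp, h⟩
    · rcases rmv_sound hV (s := s) L h with h | ⟨t, ht, h'⟩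
      · exact ⟨s, by simp, h⟩
      · exact ⟨t, by simp [ht], h'⟩

theorem le1_of {x : ℕ} (h : ∀ j k, x.testBit j = true → x.testBit k = true → j = k) :
    le1 x = true := by
  unfold le1
  by_cases h0 : x = 0
  · subst h0; rfl
  · have h1 : Nat.beq x 0 = false := by
      cases h2 : Nat.beq x 0 with
      | false => rfl
      | true => exact absurd (Nat.eq_of_beq_eq_true h2) h0
    rw [h1, cond_false]
    have h2 : x = 2 ^ Nat.log2 x := by
      have hb : x.testBit (Nat.log2 x) = true := Nat.testBit_log2 h0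
      apply Nat.eq_of_testBit_eq
      intro j
      rw [Nat.testBit_two_pow]
      by_cases hj : Nat.log2 x = j
      · rw [← hj, hb]; simp
      · simp only [hj, decide_false]
        by_contra hcon
        rw [Bool.not_eq_false] at hcon
        exact hj (h _ _ hb hcon)
    have h3 : Nat.pow 2 (Nat.log2 x) = x := h2.symm
    rw [h3]
    exact Nat.beq_refl x

/-- a state is valid for the set `A`, after the indices in `P` have been processed -/
def Valid (vals : ℕ → ℕ) (A P : Finset ℕ) (s : ℕ × ℕ × ℕ) : Prop :=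
  (∀ j, s.1.testBit j = true → j ∈ P ∧ vals j ∈ A) ∧
  (∀ j, s.2.1.testBit j = true → j ∈ P ∧ vals j ∈ A ∧
    ∃ k ∈ P, vals k ∈ A ∧ vals k ≠ vals j ∧ vals j ∣ vals k) ∧
  (P.filter (fun j => vals j ∈ A)).card ≤ s.2.2

theorem testBit_of_land_eq {a b : ℕ} (h : a &&& b = a) {j : ℕ} (hj : a.testBit j = true) :
    b.testBit j = true := by
  rw [← h, Nat.testBit_and, Bool.and_eq_true] at hj
  exact hj.2

theorem valid_stable (vals : ℕ → ℕ) (A P : Finset ℕ) : Stable (Valid vals A P) := by
  intro s t h hs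
  obtain ⟨h1, h2, h3⟩ := dom_iff h
  exact ⟨fun j hj => hs.1 j (testBit_of_land_eq h1 hj),
    fun j hj => hs.2.1 j (testBit_of_land_eq h2 hj), hs.2.2.trans h3⟩

theorem stepOne_mono {V : ℕ × ℕ × ℕ → Prop} (hV : Stable V) (i m d aI aJ : ℕ) (s : ℕ × ℕ × ℕ)
    (acc : List (ℕ × ℕ × ℕ)) (h : ∃ t ∈ acc, V t) : ∃ t ∈ stepOne i m d aI aJ s acc, V t := by
  unfold stepOne
  cases (cond (le1 (Nat.land s.1 m)) (Nat.beq (Nat.land s.2.1 d) 0) false) with
  | true =>
    rw [cond_true]
    exact ins_sound hV _ _ (Or.inr (ins_sound hV _ _ (Or.inr h)))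
  | false =>
    rw [cond_false]
    exact ins_sound hV _ _ (Or.inr h)

/-- soundness of one step from a valid state -/
theorem stepOne_sound {vals : ℕ → ℕ} {A P : Finset ℕ} (hA : Admissible A) {i m d aI aJ : ℕ}
    (hi : i ∉ P) (hinj : ∀ j ∈ insert i P, ∀ k ∈ insert i P, vals j = vals k → j = k)
    (hm : ∀ j, m.testBit j = true → vals i ∣ vals j)
    (hd : ∀ j, d.testBit j = true → vals j ∣ vals i)
    {s : ℕ × ℕ × ℕ} (hs : Valid vals A P s) (acc : List (ℕ × ℕ × ℕ)) :
    ∃ t ∈ stepOne i m d aI aJ s acc, Valid vals A (insert i P) t := by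
  classical
  have hV := valid_stable vals A (insert i P)
  have hne : ∀ j ∈ P, vals j ≠ vals i := by
    intro j hj h
    have := hinj j (Finset.mem_insert_of_mem hj) i (Finset.mem_insert_self _ _) h
    subst this
    exact hi hj
  obtain ⟨h1, h2, h3⟩ := hs
  by_cases hiA : vals i ∈ A
  · -- the element is chosen
    have c1 : le1 (Nat.land s.1 m) = true := by
      apply le1_of
      intro j k hj hk
      change (s.1 &&& m).testBit j = true at hj
      change (s.1 &&& m).testBit k = true at hk
      rw [Nat.testBit_and, Bool.and_eq_true] at hj hk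
      obtain ⟨hjP, hjA⟩ := h1 j hj.1
      obtain ⟨hkP, hkA⟩ := h1 k hk.1
      apply hinj j (Finset.mem_insert_of_mem hjP) k (Finset.mem_insert_of_mem hkP)
      by_contra hcon
      exact hA _ hiA _ hjA _ hkA (hne j hjP).symm (hne k hkP).symm hcon
        ⟨hm j hj.2, hm k hk.2⟩
    have c2 : Nat.beq (Nat.land s.2.1 d) 0 = true := by
      have : s.2.1 &&& d = 0 := by
        apply Nat.eq_of_testBit_eq
        intro j
        rw [Nat.zero_testBit]
        by_contra hcon
        rw [Bool.not_eq_false, Nat.testBit_and, Bool.and_eq_true] at hcon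
        obtain ⟨hjP, hjA, k, hkP, hkA, hkj, hjk⟩ := h2 j hcon.1
        exact hA _ hjA _ hkA _ hiA hkj.symm (hne j hjP) (hne k hkP) ⟨hjk, hd j hcon.2⟩
      change Nat.beq (s.2.1 &&& d) 0 = true
      rw [this]
      rfl
    unfold stepOne
    rw [c1, cond_true, c2, cond_true]
    apply ins_sound hV
    left
    refine ⟨?_, ?_, ?_⟩
    · intro j hj
      change ((s.1 ||| 2 ^ i) &&& aI).testBit j = true at hj
      rw [Nat.testBit_and, Nat.testBit_or, Nat.testBit_two_pow, Bool.and_eq_true,
        Bool.or_eq_true] at hj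
      rcases hj.1 with h | h
      · exact ⟨Finset.mem_insert_of_mem (h1 j h).1, (h1 j h).2⟩
      · have : i = j := by simpa using h
        subst this
        exact ⟨Finset.mem_insert_self _ _, hiA⟩
    · intro j hj
      change ((s.2.1 ||| (s.1 &&& d) ||| (cond (Nat.beq (s.1 &&& m) 0) 0 (2 ^ i))) &&& aJ).testBit j
        = true at hj
      rw [Nat.testBit_and, Nat.testBit_or, Nat.testBit_or, Nat.testBit_and, Bool.and_eq_true,
        Bool.or_eq_true, Bool.or_eq_true, Bool.and_eq_true] at hj
      rcases hj.1 with (h | h) | h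
      · obtain ⟨hjP, hjA, k, hkP, hkA, hkj, hjk⟩ := h2 j h
        exact ⟨Finset.mem_insert_of_mem hjP, hjA, k, Finset.mem_insert_of_mem hkP, hkA, hkj, hjk⟩
      · obtain ⟨hjP, hjA⟩ := h1 j h.1
        exact ⟨Finset.mem_insert_of_mem hjP, hjA, i, Finset.mem_insert_self _ _, hiA,
          (hne j hjP).symm, hd j h.2⟩
      · cases hb : Nat.beq (s.1 &&& m) 0 with
        | true =>
          rw [hb] at h
          simp at h
        | false =>
          rw [hb, cond_false, Nat.testBit_two_pow] at h
          have hij : i = j := by simpa using h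
          subst hij
          have hx : s.1 &&& m ≠ 0 := by
            intro h0
            rw [h0] at hb
            simp at hb
          obtain ⟨k, hk⟩ := Nat.exists_testBit_of_ne_zero hx
          rw [Nat.testBit_and, Bool.and_eq_true] at hk
          obtain ⟨hkP, hkA⟩ := h1 k hk.1
          exact ⟨Finset.mem_insert_self _ _, hiA, k, Finset.mem_insert_of_mem hkP, hkA,
            hne k hkP, hm k hk.2⟩
    · change ((insert i P).filter (fun j => vals j ∈ A)).card ≤ s.2.2 + 1
      rw [Finset.filter_insert, if_pos hiA]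
      refine (Finset.card_insert_le _ _).trans ?_
      omega
  · -- the element is not chosen
    have hv : Valid vals A (insert i P) (Nat.land s.1 aI, Nat.land s.2.1 aJ, s.2.2) := by
      refine ⟨?_, ?_, ?_⟩
      · intro j hj
        change (s.1 &&& aI).testBit j = true at hj
        rw [Nat.testBit_and, Bool.and_eq_true] at hj
        exact ⟨Finset.mem_insert_of_mem (h1 j hj.1).1, (h1 j hj.1).2⟩
      · intro j hj
        change (s.2.1 &&& aJ).testBit j = true at hj
        rw [Nat.testBit_and, Bool.and_eq_true] at hj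
        obtain ⟨hjP, hjA, k, hkP, hkA, hkj, hjk⟩ := h2 j hj.1
        exact ⟨Finset.mem_insert_of_mem hjP, hjA, k, Finset.mem_insert_of_mem hkP, hkA, hkj, hjk⟩
      · rw [Finset.filter_insert, if_neg hiA]
        exact h3
    unfold stepOne
    cases (cond (le1 (Nat.land s.1 m)) (Nat.beq (Nat.land s.2.1 d) 0) false) with
    | true =>
      rw [cond_true]
      exact ins_sound hV _ _ (Or.inr (ins_sound hV _ _ (Or.inl hv)))
    | false =>
      rw [cond_false]
      exact ins_sound hV _ _ (Or.inl hv)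

theorem stepAll_sound {vals : ℕ → ℕ} {A P : Finset ℕ} (hA : Admissible A) {i m d aI aJ : ℕ}
    (hi : i ∉ P) (hinj : ∀ j ∈ insert i P, ∀ k ∈ insert i P, vals j = vals k → j = k)
    (hm : ∀ j, m.testBit j = true → vals i ∣ vals j)
    (hd : ∀ j, d.testBit j = true → vals j ∣ vals i) :
    ∀ S : List (ℕ × ℕ × ℕ), (∃ s ∈ S, Valid vals A P s) →
      ∃ t ∈ stepAll i m d aI aJ S, Valid vals A (insert i P) t
  | [], ⟨s, hs, _⟩ => by simp at hs
  | s :: L, ⟨u, hu, hVu⟩ => by
    unfold stepAll
    rw [List.mem_cons] at hu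
    rcases hu with rfl | hu
    · exact stepOne_sound hA hi hinj hm hd hVu _
    · exact stepOne_mono (valid_stable _ _ _) _ _ _ _ _ _ _
        (stepAll_sound hA hi hinj hm hd L ⟨u, hu, hVu⟩)

theorem run_sound {vals : ℕ → ℕ} {A : Finset ℕ} (hA : Admissible A) :
    ∀ (items : List (ℕ × ℕ × ℕ)) (P : Finset ℕ) (S : List (ℕ × ℕ × ℕ)),
      (∀ it ∈ items, it.1 ∉ P) → (items.map (fun it => it.1)).Nodup →
      (∀ j ∈ P ∪ (items.map (fun it => it.1)).toFinset,
        ∀ k ∈ P ∪ (items.map (fun it => it.1)).toFinset, vals j = vals k → j = k) →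
      (∀ it ∈ items, ∀ j, it.2.1.testBit j = true → vals it.1 ∣ vals j) →
      (∀ it ∈ items, ∀ j, it.2.2.testBit j = true → vals j ∣ vals it.1) →
      (∃ s ∈ S, Valid vals A P s) →
      ∃ t ∈ run items S, Valid vals A (P ∪ (items.map (fun it => it.1)).toFinset) t
  | [], P, S, _, _, _, _, _, h => by
    simpa [run] using h
  | it :: rest, P, S, h1, h2, h3, h4, h5, h => by
    unfold run
    rw [List.map_cons, List.nodup_cons] at h2
    have e : insert it.1 P ∪ (rest.map (fun it => it.1)).toFinset =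
        P ∪ ((it :: rest).map (fun it => it.1)).toFinset := by
      ext x
      simp only [Finset.mem_union, Finset.mem_insert, List.map_cons, List.toFinset_cons]
      tauto
    rw [← e]
    apply run_sound hA rest (insert it.1 P)
    · intro jt hjt hcon
      rw [Finset.mem_insert] at hcon
      rcases hcon with hc | hc
      · apply h2.1
        rw [← hc]
        exact List.mem_map_of_mem hjt
      · exact h1 jt (by simp [hjt]) hc
    · exact h2.2
    · rw [e]; exact h3
    · exact fun jt hjt => h4 jt (by simp [hjt])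
    · exact fun jt hjt => h5 jt (by simp [hjt])
    · apply stepAll_sound hA (h1 it (by simp)) _ (h4 it (by simp)) (h5 it (by simp)) S h
      intro j hj k hk
      apply h3
      · rw [← e]; exact Finset.mem_union_left _ hj
      · rw [← e]; exact Finset.mem_union_left _ hk

theorem allLe_sound {b : ℕ} : ∀ (L : List (ℕ × ℕ × ℕ)), allLe b L = true → ∀ s ∈ L, s.2.2 ≤ b
  | [], _ => by simp
  | t :: L, h => by
    unfold allLe at h
    cases h1 : Nat.ble t.2.2 b with
    | false => rw [h1] at h; simp at h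
    | true =>
      rw [h1, cond_true] at h
      intro s hs
      rw [List.mem_cons] at hs
      rcases hs with rfl | hs
      · exact Nat.le_of_ble_eq_true h1
      · exact allLe_sound L h s hs

/-- the verified bound -/
theorem maxAdm_le_of_run {vals : ℕ → ℕ} {W : Finset ℕ} {b : ℕ} (items : List (ℕ × ℕ × ℕ))
    (h2 : (items.map (fun it => it.1)).Nodup)
    (h3 : ∀ j ∈ items.map (fun it => it.1), ∀ k ∈ items.map (fun it => it.1),
      vals j = vals k → j = k)
    (h4 : ∀ it ∈ items, ∀ j, it.2.1.testBit j = true → vals it.1 ∣ vals j)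
    (h5 : ∀ it ∈ items, ∀ j, it.2.2.testBit j = true → vals j ∣ vals it.1)
    (hW : ∀ t ∈ W, ∃ j ∈ items.map (fun it => it.1), vals j = t)
    (hb : allLe b (run items [(0, 0, 0)]) = true) : maxAdm W ≤ b := by
  classical
  obtain ⟨A, hAW, hA, hcard⟩ := exists_maxAdm W
  rw [← hcard]
  obtain ⟨t, ht, hV⟩ := run_sound (vals := vals) hA items ∅ [(0, 0, 0)] (by simp) h2
    (by simpa using h3) h4 h5 ⟨(0, 0, 0), by simp, by simp [Valid]⟩
  refine le_trans ?_ (allLe_sound _ hb t ht)
  refine le_trans ?_ hV.2.2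
  have h6 : A ⊆ ((∅ ∪ (items.map (fun it => it.1)).toFinset).filter
      (fun j => vals j ∈ A)).image vals := by
    intro x hx
    obtain ⟨j, hj, rfl⟩ := hW x (hAW hx)
    rw [Finset.mem_image]
    refine ⟨j, ?_, rfl⟩
    rw [Finset.mem_filter, Finset.empty_union, List.mem_toFinset]
    exact ⟨hj, hx⟩
  exact (Finset.card_le_card h6).trans Finset.card_image_le

end Pool.Agent.H822K
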