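import Pool.Agent.H822K.Base

/-!
# Density of the rough numbers and the limit of `GG y n / n` (helper822)
-/

set_option autoImplicit false

namespace Pool.Agent.H822K

open Finset Filter Topology

/-- the number of `y`-rough numbers up to `x` -/
noncomputable def RR (y x : ℕ) : ℕ := ((Icc 1 x).filter (Rough y)).card

/-- the product of the primes below `y` -/
def PP (y : ℕ) : ℕ := ∏ p ∈ y.primesBelow, p

/-- the density of the rough numbers -/
noncomputable def dl (y : ℕ) : ℝ := ∏ p ∈ y.primesBelow, (1 - 1 / (p : ℝ))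

theorem PP_pos (y : ℕ) : 0 < PP y :=
  Finset.prod_pos fun _ hp => (Nat.prime_of_mem_primesBelow hp).pos

theorem rough_iff (y m : ℕ) : Rough y m ↔ Nat.Coprime (PP y) m := by
  unfold PP
  rw [Nat.coprime_prod_left_iff]
  constructor
  · intro h p hp
    rw [(Nat.prime_of_mem_primesBelow hp).coprime_iff_not_dvd]
    intro hd
    have := h p (Nat.prime_of_mem_primesBelow hp) hd
    have := Nat.lt_of_mem_primesBelow hp
    omega
  · intro h p hp hd
    by_contra hcon
    have := h p (Nat.mem_primesBelow.2 ⟨by omega, hp⟩)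
    rw [hp.coprime_iff_not_dvd] at this
    exact this hd

theorem totient_PP (y : ℕ) : (Nat.totient (PP y) : ℝ) = PP y * dl y := by
  have h := Nat.totient_eq_mul_prod_factors (PP y)
  have h2 : (PP y).primeFactors = y.primesBelow := by
    unfold PP
    exact Nat.primeFactors_prod fun p hp => Nat.prime_of_mem_primesBelow hp
  rw [h2] at h
  have h3 : ((Nat.totient (PP y) : ℚ) : ℝ) = ((PP y * ∏ p ∈ y.primesBelow, (1 - (p : ℚ)⁻¹) : ℚ) : ℝ) := by
    rw [h]
  push_cast at h3
  rw [h3]
  unfold dl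
  simp [one_div]

theorem RR_add (y x : ℕ) : RR y (x + PP y) = RR y x + Nat.totient (PP y) := by
  unfold RR
  have e : ∀ x, (Icc 1 x).filter (Rough y) = (Ico 1 (x + 1)).filter (Nat.Coprime (PP y)) := by
    intro x
    ext m
    simp only [Finset.mem_filter, Finset.mem_Icc, Finset.mem_Ico, rough_iff]
    omega
  rw [e, e, ← Nat.filter_coprime_Ico_eq_totient (PP y) (x + 1)]
  rw [← Finset.card_union_of_disjoint, ← Finset.filter_union]
  · congr 2
    rw [Finset.Ico_union_Ico_eq_Ico (by omega) (by omega)]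
    congr 1
    omega
  · apply Finset.disjoint_filter_filter
    rw [Finset.disjoint_left]
    intro a ha hb
    rw [Finset.mem_Ico] at ha hb
    omega

theorem RR_zero (y : ℕ) : RR y 0 = 0 := by simp [RR]

theorem RR_le (y x : ℕ) : RR y x ≤ x := by
  unfold RR
  refine (Finset.card_filter_le _ _).trans ?_
  simp

theorem dl_nonneg (y : ℕ) : 0 ≤ dl y := by
  unfold dl
  apply Finset.prod_nonneg
  intro p hp
  have h := (Nat.prime_of_mem_primesBelow hp).two_le
  have : (2 : ℝ) ≤ p := by exact_mod_cast h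
  have h2 : 1 / (p : ℝ) ≤ 1 := by
    rw [div_le_one (by linarith)]
    linarith
  linarith

theorem dl_le_one (y : ℕ) : dl y ≤ 1 := by
  unfold dl
  apply Finset.prod_le_one
  · intro p hp
    have h := (Nat.prime_of_mem_primesBelow hp).two_le
    have : (2 : ℝ) ≤ p := by exact_mod_cast h
    have h2 : 1 / (p : ℝ) ≤ 1 := by
      rw [div_le_one (by linarith)]
      linarith
    linarith
  · intro p hp
    have : (0 : ℝ) ≤ 1 / p := by positivity
    linarith

theorem RR_approx (y x : ℕ) : |(RR y x : ℝ) - dl y * x| ≤ PP y := by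
  induction x using Nat.strong_induction_on with
  | _ x ih =>
    by_cases hx : x < PP y
    · have h1 : (RR y x : ℝ) ≤ x := by exact_mod_cast RR_le y x
      have h2 : (0 : ℝ) ≤ RR y x := by positivity
      have h3 : (x : ℝ) ≤ PP y := by exact_mod_cast hx.le
      have h4 := dl_nonneg y
      have h5 := dl_le_one y
      have h6 : (0 : ℝ) ≤ x := by positivity
      rw [abs_le]
      constructor <;> nlinarith
    · obtain ⟨z, rfl⟩ : ∃ z, x = z + PP y := ⟨x - PP y, by omega⟩
      have h := ih z (by have := PP_pos y; omega)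
      rw [RR_add]
      push_cast
      rw [totient_PP]
      have e : (RR y z : ℝ) + PP y * dl y - dl y * (z + PP y) = RR y z - dl y * z := by ring
      rw [e]
      exact h

theorem RR_div_tendsto (y t : ℕ) :
    Tendsto (fun n : ℕ => (RR y (n / (t + 1)) : ℝ) / n) atTop (𝓝 (dl y / (t + 1))) := by
  have key : ∀ n : ℕ, 1 ≤ n →
      |(RR y (n / (t + 1)) : ℝ) / n - dl y / (t + 1)| ≤ (PP y + 1) / n := by
    intro n hn
    have hn' : (0 : ℝ) < n := by exact_mod_cast hn
    have h1 := RR_approx y (n / (t + 1))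
    have ht : (0 : ℝ) < t + 1 := by positivity
    have h2 : |dl y * ((n / (t + 1) : ℕ) : ℝ) - dl y * (n / (t + 1))| ≤ 1 := by
      rw [← mul_sub, abs_mul, abs_of_nonneg (dl_nonneg y)]
      have h3 : |((n / (t + 1) : ℕ) : ℝ) - n / (t + 1)| ≤ 1 := by
        have a1 : ((n / (t + 1) : ℕ) : ℝ) ≤ n / (t + 1) := by
          have := @Nat.cast_div_le ℝ _ _ _ n (t + 1)
          push_cast at this
          exact this
        have a2 : (n : ℝ) / (t + 1) < ((n / (t + 1) : ℕ) : ℝ) + 1 := by
          rw [div_lt_iff₀ ht]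
          have h5 : n < (n / (t + 1) + 1) * (t + 1) := by
            have := Nat.div_add_mod n (t + 1)
            have := Nat.mod_lt n (by omega : t + 1 > 0)
            nlinarith
          exact_mod_cast h5
        rw [abs_le]
        constructor <;> linarith
      have h4 := dl_le_one y
      have h5 := dl_nonneg y
      nlinarith [abs_nonneg (((n / (t + 1) : ℕ) : ℝ) - n / (t + 1))]
    have h3 : |(RR y (n / (t + 1)) : ℝ) - dl y * (n / (t + 1))| ≤ PP y + 1 := by
      have e : (RR y (n / (t + 1)) : ℝ) - dl y * (n / (t + 1)) =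
        ((RR y (n / (t + 1)) : ℝ) - dl y * ((n / (t + 1) : ℕ) : ℝ)) +
        (dl y * ((n / (t + 1) : ℕ) : ℝ) - dl y * (n / (t + 1))) := by ring
      rw [e]
      exact (abs_add_le _ _).trans (add_le_add h1 h2)
    have e : (RR y (n / (t + 1)) : ℝ) / n - dl y / (t + 1) =
        ((RR y (n / (t + 1)) : ℝ) - dl y * (n / (t + 1))) / n := by
      field_simp
    rw [e, abs_div, abs_of_pos hn']
    gcongr
  rw [tendsto_iff_dist_tendsto_zero]
  refine squeeze_zero' (Filter.Eventually.of_forall fun _ => dist_nonneg)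
    (g := fun n : ℕ => ((PP y : ℝ) + 1) / n) ?_ ?_
  · filter_upwards [eventually_ge_atTop 1] with n hn
    rw [Real.dist_eq]
    exact key n hn
  · exact tendsto_const_div_atTop_nhds_zero_nat _

/-- the increment of `hs y` at `t + 1` -/
noncomputable def DD (y t : ℕ) : ℝ := (hs y (t + 1) : ℝ) - hs y t

theorem smoothUpTo_succ (y t : ℕ) : Nat.smoothNumbersUpTo (t + 1) y ⊆
    Nat.smoothNumbersUpTo t y ∪ {t + 1} := by
  intro k hk
  rw [Finset.mem_union, Finset.mem_singleton, mem_smoothUpTo]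
  rw [mem_smoothUpTo] at hk
  by_cases h : k ≤ t
  · exact Or.inl ⟨h, hk.2⟩
  · right; omega

theorem hs_mono (y : ℕ) {s t : ℕ} (h : s ≤ t) : hs y s ≤ hs y t := by
  apply maxAdm_mono
  intro k hk
  rw [mem_smoothUpTo] at hk ⊢
  exact ⟨hk.1.trans h, hk.2⟩

theorem hs_succ_le (y t : ℕ) : hs y (t + 1) ≤ hs y t + 1 :=
  (maxAdm_mono (smoothUpTo_succ y t)).trans (maxAdm_union_le _ _)

theorem hs_succ_eq (y t : ℕ) (h : t + 1 ∉ Nat.smoothNumbers y) : hs y (t + 1) = hs y t := by
  unfold hs
  congr 1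
  ext k
  rw [mem_smoothUpTo, mem_smoothUpTo]
  constructor
  · rintro ⟨h1, h2⟩
    refine ⟨?_, h2⟩
    by_contra hcon
    apply h
    have : k = t + 1 := by omega
    rwa [← this]
  · rintro ⟨h1, h2⟩
    exact ⟨by omega, h2⟩

theorem hs_zero (y : ℕ) : hs y 0 = 0 := by
  have h : Nat.smoothNumbersUpTo 0 y = ∅ := by
    ext k
    rw [mem_smoothUpTo]
    constructor
    · rintro ⟨h1, h2⟩
      have := Nat.ne_zero_of_mem_smoothNumbers h2
      omega
    · intro h; simp at h
  have := maxAdm_le_card (Nat.smoothNumbersUpTo 0 y)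
  rw [h] at this
  unfold hs
  rw [h]
  simpa using this

theorem DD_nonneg (y t : ℕ) : 0 ≤ DD y t := by
  unfold DD
  have : (hs y t : ℝ) ≤ hs y (t + 1) := by exact_mod_cast hs_mono y (Nat.le_succ t)
  linarith

theorem DD_le_one (y t : ℕ) : DD y t ≤ 1 := by
  unfold DD
  have : (hs y (t + 1) : ℝ) ≤ hs y t + 1 := by exact_mod_cast hs_succ_le y t
  linarith

theorem DD_eq_zero (y t : ℕ) (h : t + 1 ∉ Nat.smoothNumbers y) : DD y t = 0 := by
  unfold DD
  rw [hs_succ_eq y t h, sub_self]

theorem hs_eq_sum (y x : ℕ) : (hs y x : ℝ) = ∑ t ∈ range x, DD y t := by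
  unfold DD
  rw [Finset.sum_range_sub (fun t => (hs y t : ℝ)), hs_zero]
  simp

theorem GG_eq (y n : ℕ) :
    (GG y n : ℝ) = ∑ t ∈ range n, DD y t * RR y (n / (t + 1)) := by
  unfold GG
  push_cast
  have h1 : ∀ m ∈ (Icc 1 n).filter (Rough y), (hs y (n / m) : ℝ) =
      ∑ t ∈ range n, if t < n / m then DD y t else 0 := by
    intro m hm
    rw [Finset.mem_filter, Finset.mem_Icc] at hm
    rw [hs_eq_sum, ← Finset.sum_filter]
    congr 1
    ext t
    rw [Finset.mem_filter, Finset.mem_range, Finset.mem_range]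
    constructor
    · intro h
      exact ⟨lt_of_lt_of_le h (Nat.div_le_self n m), h⟩
    · exact fun h => h.2
  rw [Finset.sum_congr rfl h1, Finset.sum_comm]
  apply Finset.sum_congr rfl
  intro t ht
  rw [← Finset.sum_filter, Finset.sum_const, nsmul_eq_mul, mul_comm]
  congr 2
  unfold RR
  rw [Finset.filter_filter]
  congr 1
  ext m
  rw [Finset.mem_filter, Finset.mem_filter, Finset.mem_Icc, Finset.mem_Icc]
  have hm : ∀ m, 1 ≤ m → (t < n / m ↔ m ≤ n / (t + 1)) := by
    intro m hm
    rw [Nat.lt_iff_add_one_le, Nat.le_div_iff_mul_le (by omega), Nat.le_div_iff_mul_le (by omega),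
      mul_comm]
  constructor
  · rintro ⟨⟨h1, h2⟩, h3, h4⟩
    exact ⟨⟨h1, (hm m h1).1 h4⟩, h3⟩
  · rintro ⟨⟨h1, h2⟩, h3⟩
    exact ⟨⟨h1, h2.trans (Nat.div_le_self _ _)⟩, h3, (hm m h1).2 h2⟩

theorem summable_smooth (y : ℕ) :
    Summable (fun t : ℕ => (Nat.smoothNumbers y).indicator (fun t : ℕ => ((t : ℝ))⁻¹) (t + 1)) := by
  let g : ℕ →* ℝ :=
    { toFun := fun n => ((n : ℝ))⁻¹
      map_one' := by simp
      map_mul' := fun a b => by simp [mul_comm] }
  have hg : ∀ {p : ℕ}, p.Prime → ‖g p‖ < 1 := by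
    intro p hp
    have : (1 : ℝ) < p := by exact_mod_cast hp.one_lt
    change ‖((p : ℝ))⁻¹‖ < 1
    rw [norm_inv, Real.norm_of_nonneg (by positivity)]
    exact inv_lt_one_of_one_lt₀ this
  have h := (EulerProduct.summable_and_hasSum_smoothNumbers_prod_primesBelow_geometric hg y).2.summable
  have h2 : Summable ((Nat.smoothNumbers y).indicator (fun t : ℕ => ((t : ℝ))⁻¹)) := by
    rw [← summable_subtype_iff_indicator]
    exact h
  exact h2.comp_injective (add_left_injective 1)

/-- the constant attached to `y` -/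
noncomputable def cc (y : ℕ) : ℝ := dl y * ∑' t : ℕ, DD y t / (t + 1)

theorem GG_tendsto (y : ℕ) : Tendsto (fun n : ℕ => (GG y n : ℝ) / n) atTop (𝓝 (cc y)) := by
  have e : ∀ n : ℕ, (GG y n : ℝ) / n = ∑' t : ℕ, DD y t * ((RR y (n / (t + 1)) : ℝ) / n) := by
    intro n
    rw [tsum_eq_sum (s := range n)]
    · rw [GG_eq, Finset.sum_div]
      apply Finset.sum_congr rfl
      intro t _
      ring
    · intro t ht
      rw [Finset.mem_range, not_lt] at ht
      rw [Nat.div_eq_of_lt (by omega), RR_zero]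
      simp
  simp only [e]
  have e2 : cc y = ∑' t : ℕ, DD y t * (dl y / (t + 1)) := by
    unfold cc
    rw [← tsum_mul_left]
    congr 1
    ext t
    ring
  rw [e2]
  apply tendsto_tsum_of_dominated_convergence (summable_smooth y)
  · intro t
    exact (RR_div_tendsto y t).const_mul _
  · filter_upwards [eventually_ge_atTop 1] with n hn
    intro t
    have hn' : (0 : ℝ) < n := by exact_mod_cast hn
    by_cases h : t + 1 ∈ Nat.smoothNumbers y
    · rw [Set.indicator_of_mem h]
      have h1 : (RR y (n / (t + 1)) : ℝ) / n ≤ ((t + 1 : ℕ) : ℝ)⁻¹ := by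
        rw [div_le_iff₀ hn']
        have h2 : (RR y (n / (t + 1)) : ℝ) ≤ (n / (t + 1) : ℕ) := by exact_mod_cast RR_le y _
        refine h2.trans ?_
        refine Nat.cast_div_le.trans ?_
        rw [div_eq_inv_mul]
      have h3 : (0 : ℝ) ≤ (RR y (n / (t + 1)) : ℝ) / n := by positivity
      rw [Real.norm_eq_abs, abs_of_nonneg (mul_nonneg (DD_nonneg y t) h3)]
      calc DD y t * ((RR y (n / (t + 1)) : ℝ) / n) ≤ 1 * ((RR y (n / (t + 1)) : ℝ) / n) :=
            mul_le_mul_of_nonneg_right (DD_le_one y t) h3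
        _ ≤ _ := by rw [one_mul]; exact h1
    · rw [Set.indicator_of_notMem h, DD_eq_zero y t h]
      simp

/-! ### the limit -/

/-- `f n` -/
noncomputable def ff (n : ℕ) : ℕ := maxAdm (Icc 1 n)

theorem ff_le (y n : ℕ) : (ff n : ℝ) / n ≤ (GG y n : ℝ) / n := by
  have : (ff n : ℝ) ≤ GG y n := by exact_mod_cast le_GG y n
  gcongr

theorem GG_le' (y n : ℕ) (hy : 1 ≤ y) (hn : 1 ≤ n) :
    (GG y n : ℝ) / n - 1 / y ≤ (ff n : ℝ) / n := by
  have h1 : (GG y n : ℝ) ≤ ff n + ((n / y : ℕ) : ℝ) := by exact_mod_cast GG_le y n hy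
  have h2 : ((n / y : ℕ) : ℝ) ≤ n / y := Nat.cast_div_le
  have hn' : (0 : ℝ) < n := by exact_mod_cast hn
  have hy' : (0 : ℝ) < y := by exact_mod_cast hy
  have h3 : (GG y n : ℝ) / n ≤ (ff n + n / y) / n := by
    gcongr
    linarith
  have h4 : ((ff n : ℝ) + n / y) / n = ff n / n + 1 / y := by
    field_simp
  linarith

theorem exists_limit : ∃ L : ℝ, Tendsto (fun n : ℕ => (ff n : ℝ) / n) atTop (𝓝 L) ∧
    ∀ y : ℕ, 1 ≤ y → cc y - 1 / y ≤ L ∧ L ≤ cc y := by
  have hev : ∀ (y : ℕ), 1 ≤ y → ∀ ε > 0, ∀ᶠ n : ℕ in atTop,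
      cc y - 1 / y - ε < (ff n : ℝ) / n ∧ (ff n : ℝ) / n < cc y + ε := by
    intro y hy ε hε
    have h := Metric.tendsto_nhds.1 (GG_tendsto y) ε hε
    filter_upwards [h, eventually_ge_atTop 1] with n hn hn1
    rw [Real.dist_eq, abs_lt] at hn
    have h1 := ff_le y n
    have h2 := GG_le' y n hy hn1
    constructor <;> linarith
  have hC : CauchySeq (fun n : ℕ => (ff n : ℝ) / n) := by
    rw [Metric.cauchySeq_iff']
    intro ε hε
    obtain ⟨y, hy⟩ := exists_nat_gt (2 / ε)
    have hy0 : (0 : ℝ) < y := lt_trans (by positivity) hy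
    have hy1 : 1 ≤ y := by
      have : 0 < y := by exact_mod_cast hy0
      omega
    have hy2 : 1 / (y : ℝ) < ε / 2 := by
      rw [div_lt_div_iff₀ hy0 (by norm_num)]
      rw [div_lt_iff₀ hε] at hy
      linarith
    obtain ⟨N, hN⟩ := eventually_atTop.1 (hev y hy1 (ε / 4) (by positivity))
    refine ⟨N, fun n hn => ?_⟩
    have a := hN n hn
    have b := hN N le_rfl
    rw [Real.dist_eq, abs_lt]
    constructor <;> linarith [a.1, a.2, b.1, b.2]
  obtain ⟨L, hL⟩ := cauchySeq_tendsto_of_complete hC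
  refine ⟨L, hL, fun y hy => ⟨?_, ?_⟩⟩
  · apply le_of_forall_pos_lt_add
    intro ε hε
    have h := (hev y hy (ε / 2) (by positivity))
    have h2 : ∀ᶠ n : ℕ in atTop, cc y - 1 / y - ε / 2 ≤ (ff n : ℝ) / n := by
      filter_upwards [h] with n hn
      exact hn.1.le
    have := ge_of_tendsto hL h2
    linarith
  · apply le_of_forall_pos_lt_add
    intro ε hε
    have h := (hev y hy (ε / 2) (by positivity))
    have h2 : ∀ᶠ n : ℕ in atTop, (ff n : ℝ) / n ≤ cc y + ε / 2 := by
      filter_upwards [h] with n hn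
      exact hn.2.le
    have := le_of_tendsto hL h2
    linarith

end Pool.Agent.H822K
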