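import Pool.Agent.H822K.Dens

/-!
# Fibre sums (helper822)
-/

set_option autoImplicit false

namespace Pool.Agent.H822K

open Finset Filter Topology

/-- the sum over the fibres is the cardinality of the union -/
theorem fib_card (y n : ℕ) (B : ℕ → Finset ℕ) (hB : ∀ q, B q ⊆ Nat.smoothNumbersUpTo q y) :
    ((Icc 1 n).filter (fun a => sp y a ∈ B (n / rp y a))).card =
      ∑ m ∈ (Icc 1 n).filter (Rough y), (B (n / m)).card := by
  classical
  set A : Finset ℕ := (Icc 1 n).filter (fun a => sp y a ∈ B (n / rp y a)) with hA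
  have hAn : ∀ a ∈ A, a ≠ 0 ∧ a ≤ n := by
    intro a ha
    rw [hA, Finset.mem_filter, Finset.mem_Icc] at ha
    exact ⟨by omega, ha.1.2⟩
  have h2 : ∀ a ∈ A, rp y a ∈ (Icc 1 n).filter (Rough y) := by
    intro a ha
    obtain ⟨h0, hn⟩ := hAn a ha
    rw [Finset.mem_filter, Finset.mem_Icc]
    refine ⟨⟨Nat.one_le_iff_ne_zero.2 (rp_ne_zero h0), ?_⟩, rp_rough y a⟩
    refine le_trans ?_ hn
    exact Nat.le_of_dvd (Nat.pos_of_ne_zero h0) (Dvd.intro _ (rp_mul_sp h0))
  rw [Finset.card_eq_sum_card_fiberwise h2]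
  apply Finset.sum_congr rfl
  intro m hm
  rw [Finset.mem_filter, Finset.mem_Icc] at hm
  have e : A.filter (fun a => rp y a = m) = (B (n / m)).image (fun k => m * k) := by
    ext a
    rw [Finset.mem_filter, Finset.mem_image, hA, Finset.mem_filter, Finset.mem_Icc]
    constructor
    · rintro ⟨⟨⟨h1, h2⟩, h3⟩, h4⟩
      refine ⟨sp y a, ?_, ?_⟩
      · rw [h4] at h3; exact h3
      · rw [← h4]; exact rp_mul_sp (by omega)
    · rintro ⟨k, hk, rfl⟩
      have hk' := mem_smoothUpTo.1 (hB _ hk)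
      obtain ⟨e1, e2⟩ := parts_mul hm.2 hk'.2 (by omega : m ≠ 0)
      rw [e1, e2]
      refine ⟨⟨⟨?_, ?_⟩, hk⟩, rfl⟩
      · exact Nat.one_le_iff_ne_zero.2 (mul_ne_zero (by omega)
          (Nat.ne_zero_of_mem_smoothNumbers hk'.2))
      · have := hk'.1
        rw [Nat.le_div_iff_mul_le (by omega), mul_comm] at this
        exact this
  rw [e, Finset.card_image_of_injective _ (fun a b hab => by
    exact Nat.eq_of_mul_eq_mul_left (by omega : 0 < m) hab)]

/-- all integers up to `n` -/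
theorem fib_all (y n : ℕ) :
    ∑ m ∈ (Icc 1 n).filter (Rough y), (Nat.smoothNumbersUpTo (n / m) y).card = n := by
  rw [← fib_card y n (fun q => Nat.smoothNumbersUpTo q y) (fun q => Finset.Subset.refl _)]
  have : (Icc 1 n).filter (fun a => sp y a ∈ Nat.smoothNumbersUpTo (n / rp y a) y) = Icc 1 n := by
    apply Finset.filter_true_of_mem
    intro a ha
    rw [Finset.mem_Icc] at ha
    rw [mem_smoothUpTo]
    refine ⟨?_, sp_mem y a⟩
    have h0 : a ≠ 0 := by omega
    rw [Nat.le_div_iff_mul_le (Nat.pos_of_ne_zero (rp_ne_zero h0)), mul_comm, rp_mul_sp h0]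
    exact ha.2
  rw [this, Nat.card_Icc, Nat.add_sub_cancel]

/-- the integers in `(n / 3, n]` -/
theorem fib_base (y n : ℕ) :
    ∑ m ∈ (Icc 1 n).filter (Rough y),
      ((Nat.smoothNumbersUpTo (n / m) y).filter (fun t => n / m < 3 * t)).card = n - n / 3 := by
  rw [← fib_card y n (fun q => (Nat.smoothNumbersUpTo q y).filter (fun t => q < 3 * t))
    (fun q => Finset.filter_subset _ _)]
  have : (Icc 1 n).filter (fun a => sp y a ∈
      (Nat.smoothNumbersUpTo (n / rp y a) y).filter (fun t => n / rp y a < 3 * t)) =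
      Icc (n / 3 + 1) n := by
    ext a
    rw [Finset.mem_filter, Finset.mem_filter, mem_smoothUpTo, Finset.mem_Icc, Finset.mem_Icc]
    constructor
    · rintro ⟨⟨h1, h2⟩, _, h4⟩
      have h0 : a ≠ 0 := by omega
      rw [Nat.div_lt_iff_lt_mul (Nat.pos_of_ne_zero (rp_ne_zero h0)), mul_assoc,
        mul_comm (sp y a), rp_mul_sp h0] at h4
      omega
    · rintro ⟨h1, h2⟩
      have h0 : a ≠ 0 := by omega
      refine ⟨⟨by omega, h2⟩, ⟨?_, sp_mem y a⟩, ?_⟩
      · rw [Nat.le_div_iff_mul_le (Nat.pos_of_ne_zero (rp_ne_zero h0)), mul_comm, rp_mul_sp h0]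
        exact h2
      · rw [Nat.div_lt_iff_lt_mul (Nat.pos_of_ne_zero (rp_ne_zero h0)), mul_assoc,
          mul_comm (sp y a), rp_mul_sp h0]
        omega
  rw [this, Nat.card_Icc]
  omega

/-- the lower bound: a family of admissible sets in the windows `(q / y, q]` -/
theorem fib_lower (y n : ℕ) (B : ℕ → Finset ℕ)
    (hB : ∀ q, B q ⊆ Nat.smoothNumbersUpTo q y) (hadm : ∀ q, Admissible (B q))
    (hwin : ∀ q, ∀ t ∈ B q, q < y * t) :
    ∑ m ∈ (Icc 1 n).filter (Rough y), (B (n / m)).card ≤ ff n := by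
  classical
  rw [← fib_card y n B hB]
  apply le_maxAdm (Finset.filter_subset _ _)
  intro a ha b hb c hc hab hac hbc hd
  rw [Finset.mem_filter, Finset.mem_Icc] at ha hb hc
  have ha0 : a ≠ 0 := by omega
  have hbig : n < y * a := by
    have h1 := hwin _ _ ha.2
    rw [Nat.div_lt_iff_lt_mul (Nat.pos_of_ne_zero (rp_ne_zero ha0)), mul_assoc,
      mul_comm (sp y a), rp_mul_sp ha0] at h1
    exact h1
  have main : ∀ b, 1 ≤ b → b ≤ n → a ∣ b → ∃ j ∈ Nat.smoothNumbers y, b = a * j := by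
    intro b hb1 hb2 hab
    obtain ⟨j, rfl⟩ := hab
    refine ⟨j, Nat.mem_smoothNumbers_of_lt ?_ ?_, rfl⟩
    · exact Nat.pos_of_ne_zero (by rintro rfl; simp at hb1)
    · by_contra hcon
      have : a * y ≤ a * j := Nat.mul_le_mul_left a (by omega)
      rw [mul_comm a y] at this
      omega
  obtain ⟨j, hj, rfl⟩ := main b hb.1.1 hb.1.2 hd.1
  obtain ⟨i, hi, rfl⟩ := main c hc.1.1 hc.1.2 hd.2
  obtain ⟨ej1, ej2⟩ := rp_mul_smooth ha0 hj
  obtain ⟨ei1, ei2⟩ := rp_mul_smooth ha0 hi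
  have hb' := hb.2
  have hc' := hc.2
  rw [ej1, ej2] at hb'
  rw [ei1, ei2] at hc'
  refine hadm (n / rp y a) (sp y a) ha.2 (sp y a * j) hb' (sp y a * i) hc' ?_ ?_ ?_
    ⟨Dvd.intro _ rfl, Dvd.intro _ rfl⟩
  · intro h
    apply hab
    have : rp y a * sp y a = rp y a * (sp y a * j) := by rw [← h]
    rw [← mul_assoc, rp_mul_sp ha0] at this
    exact this
  · intro h
    apply hac
    have : rp y a * sp y a = rp y a * (sp y a * i) := by rw [← h]
    rw [← mul_assoc, rp_mul_sp ha0] at this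
    exact this
  · intro h
    apply hbc
    have : rp y a * (sp y a * j) = rp y a * (sp y a * i) := by rw [← h]
    rw [← mul_assoc, ← mul_assoc, rp_mul_sp ha0] at this
    exact this

/-! ### union and scaling -/

theorem maxAdm_union (S T : Finset ℕ) : maxAdm (S ∪ T) ≤ maxAdm S + maxAdm T := by
  obtain ⟨A, hA, hA', h'⟩ := exists_maxAdm (S ∪ T)
  rw [← h']
  have h1 : (A ∩ S).card ≤ maxAdm S :=
    le_maxAdm Finset.inter_subset_right (hA'.subset Finset.inter_subset_left)
  have h2 : (A \ S).card ≤ maxAdm T := by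
    apply le_maxAdm _ (hA'.subset Finset.sdiff_subset)
    intro x hx
    rw [Finset.mem_sdiff] at hx
    have := hA hx.1
    rw [Finset.mem_union] at this
    tauto
  have h3 := Finset.card_inter_add_card_sdiff A S
  omega

theorem maxAdm_scale (c : ℕ) (hc : 0 < c) (S : Finset ℕ) :
    maxAdm (S.image (fun t => c * t)) ≤ maxAdm S := by
  obtain ⟨A, hA, hA', h'⟩ := exists_maxAdm (S.image (fun t => c * t))
  rw [← h']
  have key : ∀ a ∈ A, c * (a / c) = a ∧ a / c ∈ S := by
    intro a ha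
    obtain ⟨t, ht, rfl⟩ := Finset.mem_image.1 (hA ha)
    rw [Nat.mul_div_cancel_left t hc]
    exact ⟨rfl, ht⟩
  apply card_le_maxAdm_of_map hA' (fun a => a / c)
  · intro a ha
    exact (key a ha).2
  · intro a ha b hb hab
    rw [← (key a ha).1, ← (key b hb).1, hab]
  · intro a ha b hb hab
    rw [← (key a ha).1, ← (key b hb).1]
    exact mul_dvd_mul_left c hab

/-! ### counting over lists -/

/-- the number of entries of `l` that are at most `q` -/
def cl (l : List ℕ) (q : ℕ) : ℕ := l.countP (fun s => decide (s ≤ q))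

theorem cl_cons (s : ℕ) (l : List ℕ) (q : ℕ) :
    cl (s :: l) q = cl l q + if s ≤ q then 1 else 0 := by
  unfold cl
  rw [List.countP_cons]
  simp

theorem cl_mono (l : List ℕ) {p q : ℕ} (h : p ≤ q) : cl l p ≤ cl l q := by
  unfold cl
  apply List.countP_mono_left
  intro x _ hx
  simp only [decide_eq_true_eq] at hx ⊢
  omega

theorem sum_one_le (y n s : ℕ) (hs : 0 < s) :
    (∑ m ∈ (Icc 1 n).filter (Rough y), if s ≤ n / m then 1 else 0) = RR y (n / s) := by
  rw [← Finset.sum_filter, Finset.sum_const, smul_eq_mul, mul_one]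
  unfold RR
  congr 1
  ext m
  rw [Finset.mem_filter, Finset.mem_filter, Finset.mem_filter, Finset.mem_Icc, Finset.mem_Icc]
  constructor
  · rintro ⟨⟨⟨h1, h2⟩, h3⟩, h4⟩
    refine ⟨⟨h1, ?_⟩, h3⟩
    rw [Nat.le_div_iff_mul_le (by omega)] at h4 ⊢
    rw [mul_comm]; exact h4
  · rintro ⟨⟨h1, h2⟩, h3⟩
    refine ⟨⟨⟨h1, h2.trans (Nat.div_le_self _ _)⟩, h3⟩, ?_⟩
    rw [Nat.le_div_iff_mul_le (by omega)] at h2 ⊢
    rw [mul_comm]; exact h2

theorem sum_cl (y n : ℕ) (l : List ℕ) (hl : ∀ s ∈ l, 0 < s) :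
    ∑ m ∈ (Icc 1 n).filter (Rough y), cl l (n / m) = (l.map (fun s => RR y (n / s))).sum := by
  induction l with
  | nil => simp [cl]
  | cons s l ih =>
    rw [List.map_cons, List.sum_cons, ← ih (fun t ht => hl t (by simp [ht])),
      ← sum_one_le y n s (hl s (by simp)), ← Finset.sum_add_distrib]
    apply Finset.sum_congr rfl
    intro m _
    rw [cl_cons, add_comm]

theorem RR_div_tendsto' (y s : ℕ) (hs : 0 < s) :
    Tendsto (fun n : ℕ => (RR y (n / s) : ℝ) / n) atTop (𝓝 (dl y / s)) := by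
  obtain ⟨t, rfl⟩ : ∃ t, s = t + 1 := ⟨s - 1, by omega⟩
  have := RR_div_tendsto y t
  push_cast
  exact this

theorem list_tendsto (y : ℕ) (l : List ℕ) (hl : ∀ s ∈ l, 0 < s) :
    Tendsto (fun n : ℕ => (((l.map (fun s => RR y (n / s))).sum : ℕ) : ℝ) / n) atTop
      (𝓝 (dl y * (l.map (fun s : ℕ => 1 / (s : ℝ))).sum)) := by
  induction l with
  | nil => simp
  | cons s l ih =>
    simp only [List.map_cons, List.sum_cons]
    have h1 := RR_div_tendsto' y s (hl s (by simp))
    have h2 := ih (fun t ht => hl t (by simp [ht]))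
    have h3 := h1.add h2
    have e1 : (fun n : ℕ => (((RR y (n / s) + (l.map (fun s => RR y (n / s))).sum : ℕ) : ℝ)) / n) =
        fun n : ℕ => (RR y (n / s) : ℝ) / n + (((l.map (fun s => RR y (n / s))).sum : ℕ) : ℝ) / n := by
      funext n
      push_cast
      rw [add_div]
    have e2 : dl y * (1 / (s : ℝ) + (l.map (fun s : ℕ => 1 / (s : ℝ))).sum) =
        dl y / s + dl y * (l.map (fun s : ℕ => 1 / (s : ℝ))).sum := by
      rw [mul_add, mul_one_div]
    rw [e1, e2]
    exact h3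

theorem dl_seven : dl 7 = 4 / 15 := by
  unfold dl
  have : Nat.primesBelow 7 = {2, 3, 5} := by decide
  rw [this]
  rw [Finset.prod_insert (by decide), Finset.prod_insert (by decide), Finset.prod_singleton]
  norm_num

end Pool.Agent.H822K
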