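import Pool.Agent.H822K.Base

/-!
# Reduction to the window `(q / 8, q]` for the numbers `2 ^ a * 3 ^ b * 5 ^ c`, `c ≤ 1` (helper822)
-/

set_option autoImplicit false

namespace Pool.Agent.H822K

open Finset

/-- the integers `2 ^ a * 3 ^ b * 5 ^ c ≤ q` with `c ≤ 1` -/
def EE (q : ℕ) : Finset ℕ := (Nat.smoothNumbersUpTo q 7).filter (fun t => ¬ 25 ∣ t)

theorem mem_EE {q t : ℕ} : t ∈ EE q ↔ (t ≤ q ∧ t ∈ Nat.smoothNumbers 7) ∧ ¬ 25 ∣ t := by
  unfold EE
  rw [Finset.mem_filter, mem_smoothUpTo]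

theorem EE_pos {q t : ℕ} (h : t ∈ EE q) : 0 < t :=
  Nat.pos_of_ne_zero (Nat.ne_zero_of_mem_smoothNumbers (mem_EE.1 h).1.2)

theorem EE_not7 {q t : ℕ} (h : t ∈ EE q) : ¬ 7 ∣ t := by
  intro h7
  have := Nat.mem_smoothNumbers'.1 (mem_EE.1 h).1.2 7 (by norm_num) h7
  omega

theorem EE_mul2 {q t : ℕ} (h : t ∈ EE q) (hq : 2 * t ≤ q) : 2 * t ∈ EE q := by
  rw [mem_EE] at h ⊢
  refine ⟨⟨hq, Nat.mul_mem_smoothNumbers (Nat.mem_smoothNumbers_of_lt (by norm_num) (by norm_num))
    h.1.2⟩, ?_⟩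
  intro h25
  apply h.2
  omega

theorem EE_mul3 {q t : ℕ} (h : t ∈ EE q) (hq : 3 * t ≤ q) : 3 * t ∈ EE q := by
  rw [mem_EE] at h ⊢
  refine ⟨⟨hq, Nat.mul_mem_smoothNumbers (Nat.mem_smoothNumbers_of_lt (by norm_num) (by norm_num))
    h.1.2⟩, ?_⟩
  intro h25
  apply h.2
  omega

section extremal

variable {q : ℕ} {A : Finset ℕ} (hA : A ⊆ EE q) (hadm : Admissible A)
  (hmax : ∀ B : Finset ℕ, B ⊆ EE q → Admissible B → B.card = A.card → ∑ t ∈ B, t ≤ ∑ t ∈ A, t)

include hadm in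
theorem uniq_mult {u v w : ℕ} (hu : u ∈ A) (hv : v ∈ A) (hw : w ∈ A) (h1 : u ∣ v) (h2 : u ∣ w)
    (h3 : v ≠ u) (h4 : w ≠ u) : v = w := by
  by_contra hne
  exact hadm u hu v hv w hw h3.symm h4.symm hne ⟨h1, h2⟩

include hA hadm hmax in
/-- replacing `x` by a larger `y` -/
theorem swap1 {x y d : ℕ} (hx : x ∈ A) (hy : y ∈ EE q) (hyA : y ∉ A) (hxy : x < y)
    (hd : d ∈ A) (hdy : d ∣ y) :
    ∃ u ∈ A, u ≠ x ∧ u ∣ y ∧ ∃ w ∈ A, w ≠ x ∧ w ≠ u ∧ u ∣ w := by
  classical
  have hyx : y ∉ A.erase x := fun h => hyA (Finset.mem_of_mem_erase h)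
  have hnot : ¬ Admissible (insert y (A.erase x)) := by
    intro hB
    have h1 : insert y (A.erase x) ⊆ EE q := by
      intro t ht
      rw [Finset.mem_insert] at ht
      rcases ht with rfl | ht
      · exact hy
      · exact hA (Finset.mem_of_mem_erase ht)
    have h2 : (insert y (A.erase x)).card = A.card := by
      rw [Finset.card_insert_of_notMem hyx, Finset.card_erase_add_one hx]
    have h3 := hmax _ h1 hB h2
    rw [Finset.sum_insert hyx] at h3
    have h4 := Finset.add_sum_erase A (fun t => t) hx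
    omega
  unfold Admissible at hnot
  push Not at hnot
  obtain ⟨u, hu, v, hv, w, hw, huv, huw, hvw, h1, h2⟩ := hnot
  rw [Finset.mem_insert, Finset.mem_erase] at hu hv hw
  have hdne : y ≠ d := fun h => hyA (h ▸ hd)
  rcases hu with rfl | ⟨hux, hu⟩
  · -- `u = y`
    exfalso
    rcases hv with h | ⟨hvx, hv⟩
    · exact huv h.symm
    rcases hw with h | ⟨hwx, hw⟩
    · exact huw h.symm
    have hvd : v ≠ d := by
      rintro rfl
      exact hdne (Nat.dvd_antisymm h1 hdy)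
    have hwd : w ≠ d := by
      rintro rfl
      exact hdne (Nat.dvd_antisymm h2 hdy)
    exact hvw (uniq_mult hadm hd hv hw (hdy.trans h1) (hdy.trans h2) hvd hwd)
  · rcases hv with rfl | ⟨hvx, hv⟩
    · rcases hw with rfl | ⟨hwx, hw⟩
      · exact absurd rfl hvw
      · exact ⟨u, hu, hux, h1, w, hw, hwx, huw.symm, h2⟩
    · rcases hw with rfl | ⟨hwx, hw⟩
      · exact ⟨u, hu, hux, h2, v, hv, hvx, huv.symm, h1⟩
      · exact absurd (uniq_mult hadm hu hv hw h1 h2 huv.symm huw.symm) hvw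

include hA hadm hmax in
/-- replacing `r, 3 r / 2` by `3 r, 6 r` -/
theorem swap2 {r s : ℕ} (hr : r ∈ A) (hs : s ∈ A) (hrs : 2 * s = 3 * r) (h2r : 2 * r ∈ A)
    (h6 : 6 * r ≤ q) :
    ∃ u ∈ A, u ≠ r ∧ u ≠ s ∧ u ∣ 6 * r ∧ (u ∣ 3 * r ∨ ∃ w ∈ A, w ≠ r ∧ w ≠ s ∧ w ≠ u ∧ u ∣ w) := by
  classical
  have hr0 : 0 < r := EE_pos (hA hr)
  have hmr : ∀ v ∈ A, r ∣ v → v ≠ r → v = 2 * r := fun v hv h h' =>
    uniq_mult hadm hr hv h2r h (Dvd.intro_left _ rfl) h' (by omega)
  have h3A : 3 * r ∉ A := fun h => by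
    have := hmr _ h (Dvd.intro_left _ rfl) (by omega)
    omega
  have h6A : 6 * r ∉ A := fun h => by
    have := hmr _ h (Dvd.intro_left _ rfl) (by omega)
    omega
  have h3E : 3 * r ∈ EE q := EE_mul3 (hA hr) (by omega)
  have h6E : 6 * r ∈ EE q := by
    have := EE_mul2 h3E (by omega)
    rwa [show 2 * (3 * r) = 6 * r by ring] at this
  set A0 := (A.erase r).erase s with hA0
  have hmem : ∀ t, t ∈ A0 ↔ t ∈ A ∧ t ≠ r ∧ t ≠ s := by
    intro t
    rw [hA0, Finset.mem_erase, Finset.mem_erase]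
    tauto
  have hs' : s ∈ A.erase r := by
    rw [Finset.mem_erase]
    exact ⟨by omega, hs⟩
  have hn6 : 6 * r ∉ A0 := fun h => h6A ((hmem _).1 h).1
  have hn3 : 3 * r ∉ insert (6 * r) A0 := by
    rw [Finset.mem_insert]
    rintro (h | h)
    · omega
    · exact h3A ((hmem _).1 h).1
  have hnot : ¬ Admissible (insert (3 * r) (insert (6 * r) A0)) := by
    intro hB
    have h1 : insert (3 * r) (insert (6 * r) A0) ⊆ EE q := by
      intro t ht
      rw [Finset.mem_insert, Finset.mem_insert] at ht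
      rcases ht with rfl | rfl | ht
      · exact h3E
      · exact h6E
      · exact hA ((hmem _).1 ht).1
    have h2 : (insert (3 * r) (insert (6 * r) A0)).card = A.card := by
      rw [Finset.card_insert_of_notMem hn3, Finset.card_insert_of_notMem hn6, hA0,
        Finset.card_erase_add_one hs', Finset.card_erase_add_one hr]
    have h3 := hmax _ h1 hB h2
    rw [Finset.sum_insert hn3, Finset.sum_insert hn6] at h3
    have h4 := Finset.add_sum_erase A (fun t => t) hr
    have h5 := Finset.add_sum_erase (A.erase r) (fun t => t) hs'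
    rw [← hA0] at h5
    omega
  unfold Admissible at hnot
  push Not at hnot
  obtain ⟨u, hu, v, hv, w, hw, huv, huw, hvw, h1, h2⟩ := hnot
  rw [Finset.mem_insert, Finset.mem_insert, hmem] at hu hv hw
  -- multiples of `6 r` and `3 r` in the new set
  have key6 : ∀ v, (v = 3 * r ∨ v = 6 * r ∨ v ∈ A ∧ v ≠ r ∧ v ≠ s) → 6 * r ∣ v → v = 6 * r := by
    intro v hv hd
    rcases hv with rfl | rfl | ⟨hv, hvr, _⟩
    · have := Nat.le_of_dvd (by omega) hd
      omega
    · rfl
    · have := hmr v hv ((Dvd.intro_left 6 rfl).trans hd) hvr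
      subst this
      have := Nat.le_of_dvd (by omega) hd
      omega
  have key3 : ∀ v, (v = 3 * r ∨ v = 6 * r ∨ v ∈ A ∧ v ≠ r ∧ v ≠ s) → 3 * r ∣ v →
      v = 3 * r ∨ v = 6 * r := by
    intro v hv hd
    rcases hv with rfl | rfl | ⟨hv, hvr, _⟩
    · exact Or.inl rfl
    · exact Or.inr rfl
    · have := hmr v hv ((Dvd.intro_left 3 rfl).trans hd) hvr
      subst this
      have := Nat.le_of_dvd (by omega) hd
      omega
  rcases hu with rfl | rfl | ⟨hu, hur, hus⟩
  · exfalso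
    rcases key3 v hv h1 with h | h
    · exact huv h.symm
    · rcases key3 w hw h2 with h' | h'
      · exact huw h'.symm
      · exact hvw (h.trans h'.symm)
  · exfalso
    exact huv (key6 v hv h1).symm
  · have main : ∀ v w, (v = 3 * r ∨ v = 6 * r) → (w = 3 * r ∨ w = 6 * r ∨ w ∈ A ∧ w ≠ r ∧ w ≠ s) →
        u ∣ v → u ∣ w → v ≠ w → u ≠ w →
        u ∣ 6 * r ∧ (u ∣ 3 * r ∨ ∃ w ∈ A, w ≠ r ∧ w ≠ s ∧ w ≠ u ∧ u ∣ w) := by
      intro v w hv hw h1 h2 hvw huw
      rcases hv with rfl | rfl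
      · exact ⟨h1.trans ⟨2, by ring⟩, Or.inl h1⟩
      · refine ⟨h1, ?_⟩
        rcases hw with rfl | rfl | ⟨hw, hwr, hws⟩
        · exact Or.inl h2
        · exact absurd rfl hvw
        · exact Or.inr ⟨w, hw, hwr, hws, huw.symm, h2⟩
    have fin : u ∣ 6 * r ∧ (u ∣ 3 * r ∨ ∃ w ∈ A, w ≠ r ∧ w ≠ s ∧ w ≠ u ∧ u ∣ w) := by
      by_cases hvA : v = 3 * r ∨ v = 6 * r
      · exact main v w hvA hw h1 h2 hvw huw
      · by_cases hwA : w = 3 * r ∨ w = 6 * r
        · exact main w v hwA hv h2 h1 hvw.symm huv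
        · exfalso
          have hv' : v ∈ A := by tauto
          have hw' : w ∈ A := by tauto
          exact hvw (uniq_mult hadm hu hv' hw' h1 h2 huv.symm huw.symm)
    exact ⟨u, hu, hur, hus, fin.1, fin.2⟩

/-- the divisors of `y` that are at least `a`, when `y < N * a` -/
theorem div_cases {u y : ℕ} (h : u ∣ y) : ∃ k, k * u = y := by
  obtain ⟨k, rfl⟩ := h
  exact ⟨k, mul_comm _ _⟩

include hA hadm hmax in
theorem min_large {a : ℕ} (ha : a ∈ A) (hmin : ∀ t ∈ A, a ≤ t) : q < 8 * a := by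
  by_contra hcon
  rw [not_lt] at hcon
  have ha0 : 0 < a := EE_pos (hA ha)
  -- `2 a ∈ A`
  have h2a : 2 * a ∈ A := by
    by_contra h2
    obtain ⟨u, hu, hua, hd, -⟩ := swap1 hA hadm hmax ha (EE_mul2 (hA ha) (by omega)) h2 (by omega)
      ha (Dvd.intro_left _ rfl)
    obtain ⟨k, hk⟩ := div_cases hd
    have hau := hmin u hu
    have hk2 : k ≤ 2 := by
      by_contra hk3
      have : 3 * u ≤ k * u := Nat.mul_le_mul_right _ (by omega)
      omega
    interval_cases k
    · omega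
    · exact h2 (by rw [← hk, one_mul]; exact hu)
    · omega
  have hma : ∀ v ∈ A, a ∣ v → v ≠ a → v = 2 * a := fun v hv h h' =>
    uniq_mult hadm ha hv h2a h (Dvd.intro_left _ rfl) h' (by omega)
  -- `3 a / 2 ∈ A`
  obtain ⟨p, hp, hp2⟩ : ∃ p ∈ A, 2 * p = 3 * a := by
    have h3A : 3 * a ∉ A := fun h => by
      have := hma _ h (Dvd.intro_left _ rfl) (by omega)
      omega
    obtain ⟨u, hu, hua, hd, -⟩ := swap1 hA hadm hmax ha (EE_mul3 (hA ha) (by omega)) h3A (by omega)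
      ha (Dvd.intro_left _ rfl)
    obtain ⟨k, hk⟩ := div_cases hd
    have hau := hmin u hu
    have hk2 : k ≤ 3 := by
      by_contra hk3
      have : 4 * u ≤ k * u := Nat.mul_le_mul_right _ (by omega)
      omega
    interval_cases k
    · omega
    · exact absurd (by rw [← hk, one_mul]; exact hu) h3A
    · exact ⟨u, hu, hk⟩
    · omega
  -- `6 a / 5 ∈ A`
  obtain ⟨r, hr, hr5⟩ : ∃ r ∈ A, 5 * r = 6 * a := by
    obtain ⟨u, hu, hua, hup, hd, hw⟩ := swap2 hA hadm hmax ha hp hp2 h2a (by omega)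
    obtain ⟨k, hk⟩ := div_cases hd
    have hau := hmin u hu
    have hk2 : k ≤ 6 := by
      by_contra hk3
      have : 7 * u ≤ k * u := Nat.mul_le_mul_right _ (by omega)
      omega
    interval_cases k
    · omega
    · have := hma u hu ⟨6, by omega⟩ hua
      omega
    · have := hma u hu ⟨3, by omega⟩ hua
      omega
    · exfalso
      have hu2 : u = 2 * a := by omega
      rcases hw with h | ⟨w, hw, hwa, _, hwu, h⟩
      · obtain ⟨j, hj⟩ := div_cases h
        rw [hu2] at hj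
        have hj' : (2 * j) * a = 3 * a := by linarith [hj]
        have := Nat.eq_of_mul_eq_mul_right ha0 hj'
        omega
      · have := hma w hw ((Dvd.intro_left 2 rfl).trans (hu2 ▸ h)) hwa
        omega
    · omega
    · exact ⟨u, hu, by omega⟩
    · omega
  have hr0 : 0 < r := EE_pos (hA hr)
  -- `12 a / 5 ∈ A`
  have h2r : 2 * r ∈ A := by
    by_contra h2
    obtain ⟨u, hu, hua, hd, -⟩ := swap1 hA hadm hmax hr (EE_mul2 (hA hr) (by omega)) h2 (by omega)
      hr (Dvd.intro_left _ rfl)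
    obtain ⟨k, hk⟩ := div_cases hd
    have hau := hmin u hu
    have hk2 : k ≤ 2 := by
      by_contra hk3
      have : 3 * u ≤ k * u := Nat.mul_le_mul_right _ (by omega)
      omega
    interval_cases k
    · omega
    · exact h2 (by rw [← hk, one_mul]; exact hu)
    · omega
  have hmr : ∀ v ∈ A, r ∣ v → v ≠ r → v = 2 * r := fun v hv h h' =>
    uniq_mult hadm hr hv h2r h (Dvd.intro_left _ rfl) h' (by omega)
  -- `9 a / 5 ∈ A`
  obtain ⟨s, hs, hs5⟩ : ∃ s ∈ A, 5 * s = 9 * a := by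
    have h3A : 3 * r ∉ A := fun h => by
      have := hmr _ h (Dvd.intro_left _ rfl) (by omega)
      omega
    obtain ⟨u, hu, hua, hd, -⟩ := swap1 hA hadm hmax hr (EE_mul3 (hA hr) (by omega)) h3A (by omega)
      hr (Dvd.intro_left _ rfl)
    obtain ⟨k, hk⟩ := div_cases hd
    have hau := hmin u hu
    have hk2 : k ≤ 3 := by
      by_contra hk3
      have : 4 * u ≤ k * u := Nat.mul_le_mul_right _ (by omega)
      omega
    interval_cases k
    · omega
    · exact absurd (by rw [← hk, one_mul]; exact hu) h3A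
    · exact ⟨u, hu, by omega⟩
    · omega
  -- the final contradiction
  obtain ⟨u, hu, hur, hus, hd, hw⟩ := swap2 hA hadm hmax hr hs (by omega) h2r (by omega)
  obtain ⟨k, hk⟩ := div_cases hd
  have hau := hmin u hu
  have hk2 : k ≤ 7 := by
    by_contra hk3
    have : 8 * u ≤ k * u := Nat.mul_le_mul_right _ (by omega)
    omega
  have hn25 : ¬ 25 ∣ a := (mem_EE.1 (hA ha)).2
  have hn7 : ¬ 7 ∣ a := EE_not7 (hA ha)
  interval_cases k
  · omega
  · have := hmr u hu ⟨6, by omega⟩ hur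
    omega
  · have := hmr u hu ⟨3, by omega⟩ hur
    omega
  · have hu2 : u = 2 * r := by omega
    rcases hw with h | ⟨w, hw, hwa, _, hwu, h⟩
    · obtain ⟨j, hj⟩ := div_cases h
      rw [hu2] at hj
      have hj' : (2 * j) * r = 3 * r := by linarith [hj]
      have := Nat.eq_of_mul_eq_mul_right hr0 hj'
      omega
    · have := hmr w hw ((Dvd.intro_left 2 rfl).trans (hu2 ▸ h)) hwa
      omega
  · omega
  · omega
  · omega
  · omega

end extremal

/-- the elements of `EE q` in the window `(q / 8, q]` -/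
def EW (q : ℕ) : Finset ℕ := (EE q).filter (fun t => q < 8 * t)

theorem maxAdm_EE_le (q : ℕ) : maxAdm (EE q) ≤ maxAdm (EW q) := by
  classical
  obtain ⟨A, hA, hadm, hcard⟩ := exists_maxAdm (EE q)
  set F := (EE q).powerset.filter (fun B => Admissible B ∧ B.card = A.card) with hF
  have hne : F.Nonempty := ⟨A, by rw [hF, Finset.mem_filter, Finset.mem_powerset]; exact ⟨hA, hadm, rfl⟩⟩
  obtain ⟨B, hB, hBmax⟩ := Finset.exists_max_image F (fun B => ∑ t ∈ B, t) hne
  rw [hF, Finset.mem_filter, Finset.mem_powerset] at hB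
  obtain ⟨hBE, hBadm, hBcard⟩ := hB
  have hmax : ∀ C : Finset ℕ, C ⊆ EE q → Admissible C → C.card = B.card →
      ∑ t ∈ C, t ≤ ∑ t ∈ B, t := by
    intro C hC hC' hC''
    apply hBmax
    rw [hF, Finset.mem_filter, Finset.mem_powerset]
    exact ⟨hC, hC', hC''.trans hBcard⟩
  rw [← hcard, ← hBcard]
  apply le_maxAdm _ hBadm
  intro t ht
  rw [EW, Finset.mem_filter]
  refine ⟨hBE ht, ?_⟩
  obtain ⟨a, ha, hamin⟩ := Finset.exists_min_image B (fun t => t) ⟨t, ht⟩
  have h1 := min_large hBE hBadm hmax ha hamin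
  have h2 := hamin t ht
  omega

end Pool.Agent.H822K
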