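import Pool.Agent.H822K.TabE
import Pool.Agent.H822K.Red
import Pool.Agent.H822K.Fib

/-!
# The upper bound `L ≤ 0.67301` (helper822)
-/

set_option autoImplicit false

namespace Pool.Agent.H822K

open Finset Filter Topology

/-- the items of the window of `q` -/
def winE (q : ℕ) : List (ℕ × ℕ × ℕ) :=
  (tabE.filter (fun t => cond (Nat.ble t.1 q) (Nat.ble (Nat.succ q) (Nat.mul 8 t.1)) false)).map
    (fun t => t.2)

/-- the check at one checkpoint -/
def chkOne (p : ℕ × ℕ) : Bool := allLe p.2 (run (winE p.1) [(0, 0, 0)])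

theorem chk_all : chkE.all chkOne = true := by decide +kernel

/-- all the bits of `m` are at places where the list satisfies `f` -/
def bitsOK (f : ℕ → Bool) : ℕ → List ℕ → Bool
  | m, [] => Nat.beq m 0
  | m, w :: ws => cond (Nat.beq (Nat.mod m 2) 0) (bitsOK f (Nat.div m 2) ws)
      (cond (f w) (bitsOK f (Nat.div m 2) ws) false)

theorem bitsOK_sound (f : ℕ → Bool) : ∀ (ws : List ℕ) (m : ℕ), bitsOK f m ws = true →
    ∀ j, m.testBit j = true → j < ws.length ∧ f (ws.getD j 0) = true
  | [], m, h, j, hj => by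
    unfold bitsOK at h
    rw [Nat.eq_of_beq_eq_true h] at hj
    simp at hj
  | w :: ws, m, h, j, hj => by
    unfold bitsOK at h
    have ih := bitsOK_sound f ws (Nat.div m 2)
    cases h1 : Nat.beq (Nat.mod m 2) 0 with
    | true =>
      rw [h1, cond_true] at h
      have h2 : m % 2 = 0 := Nat.eq_of_beq_eq_true h1
      cases j with
      | zero =>
        rw [Nat.testBit_zero] at hj
        simp [h2] at hj
      | succ j =>
        rw [Nat.testBit_succ] at hj
        obtain ⟨h3, h4⟩ := ih h j hj
        exact ⟨by simpa using h3, by simpa using h4⟩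
    | false =>
      rw [h1, cond_false] at h
      cases h2 : f w with
      | false => rw [h2] at h; simp at h
      | true =>
        rw [h2, cond_true] at h
        cases j with
        | zero => exact ⟨by simp, by simpa using h2⟩
        | succ j =>
          rw [Nat.testBit_succ] at hj
          obtain ⟨h3, h4⟩ := ih h j hj
          exact ⟨by simpa using h3, by simpa using h4⟩

/-- the value of an index -/
def valE (j : ℕ) : ℕ := valsE.getD j 0

theorem masks_ok : tabE.all (fun t =>
    cond (bitsOK (fun w => Nat.beq (Nat.mod w t.1) 0) t.2.2.1 valsE)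
      (bitsOK (fun w => Nat.beq (Nat.mod t.1 w) 0) t.2.2.2 valsE) false) = true := by
  decide +kernel

theorem idx_ok : tabE.all (fun t => Nat.beq (valsE.getD t.2.1 0) t.1) = true := by
  decide +kernel

theorem tab_vals : tabE.map (fun t => t.1) = valsE := by decide +kernel

theorem tab_idx : tabE.map (fun t => t.2.1) = List.range 255 := by decide +kernel

theorem len_vals : valsE.length = 255 := by decide +kernel

/-- membership, by Boolean comparison -/
def memB (x : ℕ) : List ℕ → Bool
  | [] => false
  | y :: l => cond (Nat.beq x y) true (memB x l)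

theorem memB_iff {x : ℕ} : ∀ {l : List ℕ}, memB x l = true ↔ x ∈ l
  | [] => by simp [memB]
  | y :: l => by
    unfold memB
    cases h : Nat.beq x y with
    | true =>
      have := Nat.eq_of_beq_eq_true h
      simp [this]
    | false =>
      have : x ≠ y := by
        rintro rfl
        simp at h
      rw [cond_false, memB_iff]
      simp [this]

/-- no duplicates, by Boolean comparison -/
def nodupB : List ℕ → Bool
  | [] => true
  | x :: l => cond (memB x l) false (nodupB l)

theorem nodupB_sound : ∀ {l : List ℕ}, nodupB l = true → l.Nodup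
  | [], _ => List.nodup_nil
  | x :: l, h => by
    unfold nodupB at h
    cases h1 : memB x l with
    | true => rw [h1] at h; simp at h
    | false =>
      rw [h1, cond_false] at h
      rw [List.nodup_cons]
      refine ⟨fun hx => ?_, nodupB_sound h⟩
      rw [memB_iff.2 hx] at h1
      simp at h1

theorem vals_nodup : valsE.Nodup := nodupB_sound (by decide +kernel)

theorem valE_inj {j k : ℕ} (hj : j < 255) (hk : k < 255) (h : valE j = valE k) : j = k := by
  unfold valE at h
  rw [List.getD_eq_getElem _ _ (by rw [len_vals]; exact hj),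
    List.getD_eq_getElem _ _ (by rw [len_vals]; exact hk)] at h
  exact (vals_nodup.getElem_inj_iff).1 h

theorem tab_spec {t : ℕ × ℕ × ℕ × ℕ} (ht : t ∈ tabE) :
    valE t.2.1 = t.1 ∧ t.2.1 < 255 ∧ (∀ j, t.2.2.1.testBit j = true → t.1 ∣ valE j) ∧
      (∀ j, t.2.2.2.testBit j = true → valE j ∣ t.1) := by
  have h1 := List.all_eq_true.1 idx_ok t ht
  have h2 := List.all_eq_true.1 masks_ok t ht
  cases h3 : bitsOK (fun w => Nat.beq (Nat.mod w t.1) 0) t.2.2.1 valsE with
  | false => rw [h3] at h2; simp at h2
  | true =>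
    rw [h3, cond_true] at h2
    refine ⟨Nat.eq_of_beq_eq_true h1, ?_, ?_, ?_⟩
    · have : t.2.1 ∈ List.range 255 := by
        rw [← tab_idx]
        exact List.mem_map_of_mem (f := fun t => t.2.1) ht
      simpa using this
    · intro j hj
      have := (bitsOK_sound _ _ _ h3 j hj).2
      exact Nat.dvd_of_mod_eq_zero (Nat.eq_of_beq_eq_true this)
    · intro j hj
      have := (bitsOK_sound _ _ _ h2 j hj).2
      exact Nat.dvd_of_mod_eq_zero (Nat.eq_of_beq_eq_true this)

/-! ### completeness of the table -/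

theorem smooth7_form {t : ℕ} (h : t ∈ Nat.smoothNumbers 7) :
    ∃ a b c : ℕ, t = 2 ^ a * 3 ^ b * 5 ^ c := by
  induction t using Nat.strong_induction_on with
  | _ t ih =>
    by_cases h1 : t = 1
    · exact ⟨0, 0, 0, by simp [h1]⟩
    · obtain ⟨p, hp, hpt⟩ := Nat.exists_prime_and_dvd h1
      have hp7 := Nat.mem_smoothNumbers'.1 h p hp hpt
      have h0 := Nat.ne_zero_of_mem_smoothNumbers h
      obtain ⟨s, rfl⟩ := hpt
      have hs : s ∈ Nat.smoothNumbers 7 := Nat.mem_smoothNumbers_of_dvd h (Dvd.intro_left _ rfl)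
      have hs0 := Nat.ne_zero_of_mem_smoothNumbers hs
      obtain ⟨a, b, c, e⟩ := ih s (by
        have := hp.two_le
        have : 0 < s := Nat.pos_of_ne_zero hs0
        nlinarith) hs
      have hp2 := hp.two_le
      interval_cases p
      · exact ⟨a + 1, b, c, by rw [e]; ring⟩
      · exact ⟨a, b + 1, c, by rw [e]; ring⟩
      · exact absurd hp (by norm_num)
      · exact ⟨a, b, c + 1, by rw [e]; ring⟩
      · exact absurd hp (by norm_num)

theorem compl_ok : (List.range 20).all (fun a => (List.range 13).all (fun b =>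
    (List.range 2).all (fun c =>
      cond (Nat.ble (Nat.mul (Nat.mul (Nat.pow 2 a) (Nat.pow 3 b)) (Nat.pow 5 c)) 1048575)
        (memB (Nat.mul (Nat.mul (Nat.pow 2 a) (Nat.pow 3 b)) (Nat.pow 5 c)) valsE) true))) =
    true := by decide +kernel

theorem mem_vals {t : ℕ} (ht : t ∈ EE 1048575) : t ∈ valsE := by
  rw [mem_EE] at ht
  obtain ⟨⟨h1, h2⟩, h3⟩ := ht
  obtain ⟨a, b, c, rfl⟩ := smooth7_form h2
  have pa : 0 < 2 ^ a := by positivity
  have pb : 0 < 3 ^ b := by positivity
  have pc : 0 < 5 ^ c := by positivity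
  have ha : a < 20 := by
    by_contra hcon
    have q1 : 2 ^ 20 ≤ 2 ^ a := Nat.pow_le_pow_right (by norm_num) (by omega)
    have q2 : 2 ^ a ≤ 2 ^ a * 3 ^ b * 5 ^ c := by
      rw [mul_assoc]; exact Nat.le_mul_of_pos_right _ (by positivity)
    have : (2 : ℕ) ^ 20 = 1048576 := by norm_num
    omega
  have hb : b < 13 := by
    by_contra hcon
    have q1 : 3 ^ 13 ≤ 3 ^ b := Nat.pow_le_pow_right (by norm_num) (by omega)
    have q2 : 3 ^ b ≤ 2 ^ a * 3 ^ b * 5 ^ c := by
      rw [mul_comm (2 ^ a), mul_assoc]; exact Nat.le_mul_of_pos_right _ (by positivity)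
    have : (3 : ℕ) ^ 13 = 1594323 := by norm_num
    omega
  have hc : c < 2 := by
    by_contra hcon
    apply h3
    have : (5 : ℕ) ^ 2 ∣ 5 ^ c := pow_dvd_pow 5 (by omega)
    exact (show (25 : ℕ) = 5 ^ 2 by norm_num) ▸ this.trans (Dvd.intro_left _ rfl)
  have k1 := List.all_eq_true.1 compl_ok a (by simpa using ha)
  have k2 := List.all_eq_true.1 k1 b (by simpa using hb)
  have k3 := List.all_eq_true.1 k2 c (by simpa using hc)
  have k4 : Nat.ble (Nat.mul (Nat.mul (Nat.pow 2 a) (Nat.pow 3 b)) (Nat.pow 5 c)) 1048575 = true :=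
    Nat.ble_eq_true_of_le h1
  rw [k4, cond_true] at k3
  exact memB_iff.1 k3

theorem EE_mono {p q : ℕ} (h : p ≤ q) : EE p ⊆ EE q := by
  intro t ht
  rw [mem_EE] at ht ⊢
  exact ⟨⟨ht.1.1.trans h, ht.1.2⟩, ht.2⟩

/-- the bound at a checkpoint -/
theorem check_bound {p : ℕ × ℕ} (hp : p ∈ chkE) (hq : p.1 ≤ 1048575) :
    maxAdm (EE p.1) ≤ p.2 := by
  refine (maxAdm_EE_le p.1).trans ?_
  have hrun := List.all_eq_true.1 chk_all p hp
  have hsub : (winE p.1).map (fun it => it.1) = (tabE.filter (fun t => cond (Nat.ble t.1 p.1)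
      (Nat.ble (Nat.succ p.1) (Nat.mul 8 t.1)) false)).map (fun t => t.2.1) := by
    unfold winE
    rw [List.map_map]
    rfl
  have hmem : ∀ it ∈ winE p.1, ∃ t ∈ tabE, t.2 = it := by
    intro it hit
    unfold winE at hit
    rw [List.mem_map] at hit
    obtain ⟨t, ht, rfl⟩ := hit
    exact ⟨t, (List.mem_filter.1 ht).1, rfl⟩
  apply maxAdm_le_of_run (vals := valE) (winE p.1)
  · rw [hsub]
    have hs : ((tabE.filter (fun t => cond (Nat.ble t.1 p.1)
      (Nat.ble (Nat.succ p.1) (Nat.mul 8 t.1)) false)).map (fun t => t.2.1)).Sublist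
        (tabE.map (fun t => t.2.1)) := List.Sublist.map _ List.filter_sublist
    apply hs.nodup
    rw [tab_idx]
    exact List.nodup_range
  · intro j hj k hk h
    rw [List.mem_map] at hj hk
    obtain ⟨it, hit, rfl⟩ := hj
    obtain ⟨jt, hjt, rfl⟩ := hk
    obtain ⟨t, ht, rfl⟩ := hmem it hit
    obtain ⟨u, hu, rfl⟩ := hmem jt hjt
    exact valE_inj (tab_spec ht).2.1 (tab_spec hu).2.1 h
  · intro it hit j hj
    obtain ⟨t, ht, rfl⟩ := hmem it hit
    rw [(tab_spec ht).1]
    exact (tab_spec ht).2.2.1 j hj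
  · intro it hit j hj
    obtain ⟨t, ht, rfl⟩ := hmem it hit
    rw [(tab_spec ht).1]
    exact (tab_spec ht).2.2.2 j hj
  · intro x hx
    rw [EW, Finset.mem_filter] at hx
    have h1 := mem_vals (EE_mono hq hx.1)
    rw [← tab_vals, List.mem_map] at h1
    obtain ⟨t, ht, rfl⟩ := h1
    refine ⟨t.2.1, ?_, (tab_spec ht).1⟩
    rw [hsub, List.mem_map]
    refine ⟨t, ?_, rfl⟩
    rw [List.mem_filter]
    refine ⟨ht, ?_⟩
    have h2 := (mem_EE.1 hx.1).1.1
    have h3 : Nat.ble t.1 p.1 = true := Nat.ble_eq_true_of_le h2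
    have h4 : Nat.ble (Nat.succ p.1) (Nat.mul 8 t.1) = true := Nat.ble_eq_true_of_le hx.2
    rw [h3, h4]
    rfl
  · exact hrun

/-! ### the bound for every `q` -/

/-- the checkpoints follow each other -/
def chain (J : List ℕ) (T : ℕ) : ℕ → List (ℕ × ℕ) → Bool
  | lo, [] => Nat.ble (Nat.succ T) lo
  | lo, p :: L => cond (Nat.ble p.2 (cl J lo)) (chain J T (Nat.succ p.1) L) false

theorem chain_sound (J : List ℕ) (T : ℕ) : ∀ (L : List (ℕ × ℕ)) (lo : ℕ),
    chain J T lo L = true → ∀ q, lo ≤ q → q ≤ T → ∃ p ∈ L, q ≤ p.1 ∧ p.2 ≤ cl J q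
  | [], lo, h, q, h1, h2 => by
    unfold chain at h
    have := Nat.le_of_ble_eq_true h
    omega
  | p :: L, lo, h, q, h1, h2 => by
    unfold chain at h
    cases h3 : Nat.ble p.2 (cl J lo) with
    | false => rw [h3] at h; simp at h
    | true =>
      rw [h3, cond_true] at h
      by_cases h4 : q ≤ p.1
      · exact ⟨p, by simp, h4, (Nat.le_of_ble_eq_true h3).trans (cl_mono J h1)⟩
      · obtain ⟨u, hu, hu'⟩ := chain_sound J T L _ h q (by
          change p.1 + 1 ≤ q; omega) h2
        exact ⟨u, by simp [hu], hu'⟩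

theorem chain_ok : chain jumpsE 1048575 1 chkE = true := by decide +kernel

theorem chk_le : chkE.all (fun p => Nat.ble p.1 1048575) = true := by decide +kernel

theorem EE_bound {q : ℕ} (h1 : 1 ≤ q) (h2 : q ≤ 1048575) : maxAdm (EE q) ≤ cl jumpsE q := by
  obtain ⟨p, hp, hq, hw⟩ := chain_sound _ _ _ _ chain_ok q h1 h2
  have := List.all_eq_true.1 chk_le p hp
  exact (maxAdm_mono (EE_mono hq)).trans
    ((check_bound hp (Nat.le_of_ble_eq_true this)).trans hw)

theorem all_nodup : (restE ++ jumpsE).Nodup := nodupB_sound (by decide +kernel)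

theorem all_div : (restE ++ jumpsE).all (fun s =>
    cond (Nat.ble s 1048575) (Nat.beq (Nat.mod (2 ^ 19 * 3 ^ 12 * 5) s) 0) false) = true := by
  decide +kernel

theorem all_mem {s : ℕ} (hs : s ∈ restE ++ jumpsE) : s ∈ EE 1048575 := by
  have h := List.all_eq_true.1 all_div s hs
  cases h1 : Nat.ble s 1048575 with
  | false => rw [h1] at h; simp at h
  | true =>
    rw [h1, cond_true] at h
    have hd : s ∣ 2 ^ 19 * 3 ^ 12 * 5 := Nat.dvd_of_mod_eq_zero (Nat.eq_of_beq_eq_true h)
    rw [mem_EE]
    refine ⟨⟨Nat.le_of_ble_eq_true h1, ?_⟩, ?_⟩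
    · refine Nat.mem_smoothNumbers_of_dvd ?_ hd
      rw [Nat.mem_smoothNumbers']
      intro p hp hpd
      rw [hp.dvd_mul, hp.dvd_mul] at hpd
      rcases hpd with (h | h) | h
      · have := Nat.le_of_dvd (by norm_num) (hp.dvd_of_dvd_pow h); omega
      · have := Nat.le_of_dvd (by norm_num) (hp.dvd_of_dvd_pow h); omega
      · have := Nat.le_of_dvd (by norm_num) h; omega
    · intro h25
      have := h25.trans hd
      norm_num at this

/-- counting a list inside a finite set -/
theorem cl_le_card {l : List ℕ} (hl : l.Nodup) {q : ℕ} {S : Finset ℕ}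
    (h : ∀ s ∈ l, s ≤ q → s ∈ S) : cl l q ≤ S.card := by
  classical
  unfold cl
  rw [List.countP_eq_length_filter]
  have h1 : (l.filter (fun s => decide (s ≤ q))).Nodup := hl.filter _
  rw [← List.toFinset_card_of_nodup h1]
  apply Finset.card_le_card
  intro x hx
  rw [List.mem_toFinset, List.mem_filter] at hx
  exact h x hx.1 (by simpa using hx.2)

theorem cl_append (l m : List ℕ) (q : ℕ) : cl (l ++ m) q = cl l q + cl m q := by
  unfold cl
  rw [List.countP_append]

/-- the deficit of `EE q` -/
theorem EE_deficit (q : ℕ) : maxAdm (EE q) + cl restE q ≤ (EE q).card := by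
  classical
  have hsmall : ∀ q, q ≤ 1048575 → maxAdm (EE q) + cl restE q ≤ (EE q).card := by
    intro q hq
    have hcard : cl restE q + cl jumpsE q ≤ (EE q).card := by
      rw [← cl_append]
      apply cl_le_card all_nodup
      intro s hs hsq
      have := all_mem hs
      rw [mem_EE] at this ⊢
      exact ⟨⟨hsq, this.1.2⟩, this.2⟩
    by_cases h1 : 1 ≤ q
    · have := EE_bound h1 hq
      omega
    · have h0 : q = 0 := by omega
      subst h0
      have e : EE 0 = ∅ := by
        ext t
        constructor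
        · intro ht
          have := EE_pos ht
          have := (mem_EE.1 ht).1.1
          omega
        · intro ht; simp at ht
      have := maxAdm_le_card (EE 0)
      rw [e] at this hcard ⊢
      simp only [Finset.card_empty] at this hcard ⊢
      omega
  by_cases hq : q ≤ 1048575
  · exact hsmall q hq
  · have h1 := hsmall 1048575 le_rfl
    have hsub : EE 1048575 ⊆ EE q := EE_mono (by omega)
    have h2 : maxAdm (EE q) ≤ maxAdm (EE 1048575) + (EE q \ EE 1048575).card := by
      have := maxAdm_union_le (EE 1048575) (EE q \ EE 1048575)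
      rwa [Finset.union_sdiff_of_subset hsub] at this
    have h3 := Finset.card_sdiff_add_card_eq_card hsub
    have h4 : cl restE q = cl restE 1048575 := by
      unfold cl
      apply List.countP_congr
      intro s hs
      have := (mem_EE.1 (all_mem (List.mem_append_left _ hs))).1.1
      simp only [decide_eq_true_eq]
      constructor
      · intro _; exact this
      · intro _; omega
    omega

/-- the deficit of all the smooth numbers -/
theorem smooth_deficit (q : ℕ) : ∀ k : ℕ, hs 7 q + ∑ i ∈ range k, cl restE (q / 25 ^ i) ≤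
    (Nat.smoothNumbersUpTo q 7).card := by
  classical
  intro k
  induction k generalizing q with
  | zero => simpa [hs] using maxAdm_le_card _
  | succ k ih =>
    rw [Finset.sum_range_succ']
    have e1 : ∀ i, q / 25 ^ (i + 1) = (q / 25) / 25 ^ i := by
      intro i
      rw [Nat.div_div_eq_div_mul, pow_succ, mul_comm]
    simp only [e1, pow_zero, Nat.div_one]
    have h1 := ih (q / 25)
    have h2 := EE_deficit q
    have hu : Nat.smoothNumbersUpTo q 7 =
        EE q ∪ (Nat.smoothNumbersUpTo (q / 25) 7).image (fun t => 25 * t) := by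
      ext t
      rw [Finset.mem_union, Finset.mem_image, mem_EE, mem_smoothUpTo]
      constructor
      · rintro ⟨h1, h2⟩
        by_cases h25 : 25 ∣ t
        · right
          obtain ⟨u, rfl⟩ := h25
          refine ⟨u, ?_, rfl⟩
          rw [mem_smoothUpTo]
          refine ⟨?_, Nat.mem_smoothNumbers_of_dvd h2 (Dvd.intro_left _ rfl)⟩
          omega
        · left
          exact ⟨⟨h1, h2⟩, h25⟩
      · rintro (h | ⟨u, hu, rfl⟩)
        · exact h.1
        · rw [mem_smoothUpTo] at hu
          refine ⟨by omega, ?_⟩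
          refine Nat.mul_mem_smoothNumbers ?_ hu.2
          rw [show (25 : ℕ) = 5 * 5 by norm_num]
          exact Nat.mul_mem_smoothNumbers
            (Nat.mem_smoothNumbers_of_lt (by norm_num) (by norm_num))
            (Nat.mem_smoothNumbers_of_lt (by norm_num) (by norm_num))
    have hdis : Disjoint (EE q) ((Nat.smoothNumbersUpTo (q / 25) 7).image (fun t => 25 * t)) := by
      rw [Finset.disjoint_left]
      intro t ht hu
      rw [Finset.mem_image] at hu
      obtain ⟨u, _, rfl⟩ := hu
      exact (mem_EE.1 ht).2 (Dvd.intro _ rfl)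
    have h3 : hs 7 q ≤ maxAdm (EE q) + hs 7 (q / 25) := by
      unfold hs
      rw [hu]
      exact (maxAdm_union _ _).trans (Nat.add_le_add_left (maxAdm_scale 25 (by norm_num) _) _)
    have h4 : (Nat.smoothNumbersUpTo q 7).card =
        (EE q).card + (Nat.smoothNumbersUpTo (q / 25) 7).card := by
      rw [hu, Finset.card_union_of_disjoint hdis, Finset.card_image_of_injective]
      intro a b hab
      simp only at hab
      omega
    omega

/-! ### the limit -/

/-- the list `restE`, scaled by `1, 25, 625, 15625` -/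
def rest4 : List ℕ := restE ++ (restE.map (fun s => 25 * s) ++
  (restE.map (fun s => 625 * s) ++ restE.map (fun s => 15625 * s)))

theorem cl_map (c : ℕ) (hc : 0 < c) (l : List ℕ) (q : ℕ) :
    cl (l.map (fun s => c * s)) q = cl l (q / c) := by
  unfold cl
  rw [List.countP_map]
  apply List.countP_congr
  intro s _
  simp only [Function.comp, decide_eq_true_eq]
  rw [Nat.le_div_iff_mul_le hc, mul_comm]

theorem smooth_deficit4 (q : ℕ) : hs 7 q + cl rest4 q ≤ (Nat.smoothNumbersUpTo q 7).card := by
  have h := smooth_deficit q 4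
  unfold rest4
  rw [cl_append, cl_append, cl_append, cl_map 25 (by norm_num), cl_map 625 (by norm_num),
    cl_map 15625 (by norm_num)]
  simp only [Finset.sum_range_succ, Finset.sum_range_zero] at h
  norm_num at h
  omega

theorem rest_pos : rest4.all (fun s => Nat.ble 1 s) = true := by decide +kernel

theorem rest4_pos {s : ℕ} (hs : s ∈ rest4) : 0 < s :=
  Nat.le_of_ble_eq_true (List.all_eq_true.1 rest_pos s hs)

theorem ff_add_le (n : ℕ) : ff n + (rest4.map (fun s => RR 7 (n / s))).sum ≤ n := by
  rw [← sum_cl 7 n rest4 (fun s hs => rest4_pos hs)]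
  have h1 : ff n ≤ GG 7 n := le_GG 7 n
  unfold GG at h1
  have h2 : ∑ m ∈ (Icc 1 n).filter (Rough 7), hs 7 (n / m) +
      ∑ m ∈ (Icc 1 n).filter (Rough 7), cl rest4 (n / m) ≤ n := by
    rw [← Finset.sum_add_distrib]
    refine le_trans (Finset.sum_le_sum fun m _ => smooth_deficit4 (n / m)) ?_
    rw [fib_all]
  omega

theorem sum_floor : (rest4.map (fun s => 1000000000000 / s)).sum = 1226218252190 := by
  decide +kernel

theorem floor_sum_le (l : List ℕ) (hl : ∀ s ∈ l, 0 < s) (N : ℕ) :
    (((l.map (fun s => N / s)).sum : ℕ) : ℝ) ≤ N * (l.map (fun s : ℕ => 1 / (s : ℝ))).sum := by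
  induction l with
  | nil => simp
  | cons s l ih =>
    simp only [List.map_cons, List.sum_cons]
    push_cast
    rw [mul_add]
    have h1 := ih (fun t ht => hl t (by simp [ht]))
    have h2 : ((N / s : ℕ) : ℝ) ≤ N * (1 / (s : ℝ)) := by
      rw [mul_one_div]
      exact Nat.cast_div_le
    push_cast at h1
    exact add_le_add h2 h1

theorem upper_limit {L : ℝ} (hL : Tendsto (fun n : ℕ => (ff n : ℝ) / n) atTop (𝓝 L)) :
    L ≤ 67301 / 100000 := by
  have h1 := list_tendsto 7 rest4 (fun s hs => rest4_pos hs)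
  have h2 := hL.add h1
  have h3 : L + dl 7 * (rest4.map (fun s : ℕ => 1 / (s : ℝ))).sum ≤ 1 := by
    apply le_of_tendsto h2
    filter_upwards [eventually_ge_atTop 1] with n hn
    have hn' : (0 : ℝ) < n := by exact_mod_cast hn
    rw [← add_div, div_le_one hn']
    exact_mod_cast ff_add_le n
  have h4 := floor_sum_le rest4 (fun s hs => rest4_pos hs) 1000000000000
  rw [sum_floor] at h4
  rw [dl_seven] at h3
  push_cast at h4
  linarith

end Pool.Agent.H822K
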