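import Pool.Agent.H822K.TabL
import Pool.Agent.H822K.UpE

/-!
# The lower bound `0.67293 ≤ L` (helper822)
-/

set_option autoImplicit false

namespace Pool.Agent.H822K

open Finset Filter Topology

/-- the entries at the places of the bits of `b` -/
def selT : ℕ → List (ℕ × ℕ) → List (ℕ × ℕ)
  | _, [] => []
  | b, t :: ws => cond (Nat.beq (Nat.mod b 2) 0) (selT (Nat.div b 2) ws)
      (t :: selT (Nat.div b 2) ws)

theorem selT_mem : ∀ (l : List (ℕ × ℕ)) (b : ℕ) (e : ℕ × ℕ), e ∈ selT b l →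
    ∃ j, l[j]? = some e ∧ b.testBit j = true
  | [], b, e, h => by simp [selT] at h
  | t :: ws, b, e, h => by
    unfold selT at h
    cases h1 : Nat.beq (Nat.mod b 2) 0 with
    | true =>
      rw [h1, cond_true] at h
      obtain ⟨j, hj, hb⟩ := selT_mem ws _ e h
      refine ⟨j + 1, by simpa using hj, ?_⟩
      rw [Nat.testBit_succ]
      exact hb
    | false =>
      rw [h1, cond_false, List.mem_cons] at h
      rcases h with rfl | h
      · refine ⟨0, by simp, ?_⟩
        rw [Nat.testBit_zero]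
        have : b % 2 ≠ 0 := by
          intro h0
          change Nat.beq (b % 2) 0 = false at h1
          rw [h0] at h1
          simp at h1
        simp only [decide_eq_true_eq]
        omega
      · obtain ⟨j, hj, hb⟩ := selT_mem ws _ e h
        refine ⟨j + 1, by simpa using hj, ?_⟩
        rw [Nat.testBit_succ]
        exact hb

theorem selT_sublist : ∀ (l : List (ℕ × ℕ)) (b : ℕ), (selT b l).Sublist l
  | [], b => by simp [selT]
  | t :: ws, b => by
    unfold selT
    cases Nat.beq (Nat.mod b 2) 0 with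
    | true =>
      rw [cond_true]
      exact (selT_sublist ws _).cons t
    | false =>
      rw [cond_false]
      exact (selT_sublist ws _).cons_cons t

/-- the mask `m` contains the places of the multiples of `t` below `7 t` -/
def complM (t : ℕ) : ℕ → List (ℕ × ℕ) → Bool
  | _, [] => true
  | m, w :: ws => cond (complM t (Nat.div m 2) ws)
      (cond (Nat.beq (Nat.mod w.1 t) 0)
        (cond (Nat.beq w.1 t) true
          (cond (Nat.ble (Nat.mul 7 t) w.1) true (Nat.beq (Nat.mod m 2) 1))) true) false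

theorem complM_sound (t : ℕ) : ∀ (l : List (ℕ × ℕ)) (m : ℕ), complM t m l = true →
    ∀ (j : ℕ) (w : ℕ × ℕ), l[j]? = some w → t ∣ w.1 → w.1 ≠ t → w.1 < 7 * t → m.testBit j = true
  | [], m, _, j, w, h, _, _, _ => by simp at h
  | u :: ws, m, h, j, w, hj, h1, h2, h3 => by
    unfold complM at h
    cases h4 : complM t (Nat.div m 2) ws with
    | false => rw [h4] at h; simp at h
    | true =>
      cases j with
      | zero =>
        have e : u = w := by simpa using hj
        subst e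
        have e1 : Nat.beq (Nat.mod u.1 t) 0 = true := by
          have : u.1 % t = 0 := Nat.mod_eq_zero_of_dvd h1
          change Nat.beq (u.1 % t) 0 = true
          rw [this]; rfl
        have e2 : Nat.beq u.1 t = false := by
          cases h5 : Nat.beq u.1 t with
          | false => rfl
          | true => exact absurd (Nat.eq_of_beq_eq_true h5) h2
        have e3 : Nat.ble (Nat.mul 7 t) u.1 = false := by
          cases h5 : Nat.ble (Nat.mul 7 t) u.1 with
          | false => rfl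
          | true =>
            have := Nat.le_of_ble_eq_true h5
            change 7 * t ≤ u.1 at this
            omega
        rw [h4, cond_true, e1, cond_true, e2, cond_false, e3, cond_false] at h
        have h6 : m % 2 = 1 := Nat.eq_of_beq_eq_true h
        rw [Nat.testBit_zero]
        simp [h6]
      | succ j =>
        rw [Nat.testBit_succ]
        exact complM_sound t ws _ h4 j w (by simpa using hj) h1 h2 h3

theorem compl_masks : tabS.all (fun e => complM e.1 e.2 tabS) = true := by decide +kernel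

/-- the values -/
def valsS : List ℕ := tabS.map (fun e => e.1)

theorem valsS_nodup : valsS.Nodup := nodupB_sound (by decide +kernel)

theorem valsS_ok : valsS.all (fun s => cond (Nat.ble 1 s)
    (cond (Nat.ble s 100000) (Nat.beq (Nat.mod (2 ^ 16 * 3 ^ 10 * 5 ^ 7) s) 0) false) false)
    = true := by decide +kernel

theorem valsS_mem {s : ℕ} (hs : s ∈ valsS) : s ≤ 100000 ∧ s ∈ Nat.smoothNumbers 7 := by
  have h := List.all_eq_true.1 valsS_ok s hs
  cases h0 : Nat.ble 1 s with
  | false => rw [h0] at h; simp at h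
  | true =>
    rw [h0, cond_true] at h
    cases h1 : Nat.ble s 100000 with
    | false => rw [h1] at h; simp at h
    | true =>
      rw [h1, cond_true] at h
      have hd : s ∣ 2 ^ 16 * 3 ^ 10 * 5 ^ 7 :=
        Nat.dvd_of_mod_eq_zero (Nat.eq_of_beq_eq_true h)
      refine ⟨Nat.le_of_ble_eq_true h1, ?_⟩
      refine Nat.mem_smoothNumbers_of_dvd ?_ hd
      rw [Nat.mem_smoothNumbers']
      intro p hp hpd
      rw [hp.dvd_mul, hp.dvd_mul] at hpd
      rcases hpd with (h | h) | h
      · have := Nat.le_of_dvd (by norm_num) (hp.dvd_of_dvd_pow h); omega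
      · have := Nat.le_of_dvd (by norm_num) (hp.dvd_of_dvd_pow h); omega
      · have := Nat.le_of_dvd (by norm_num) (hp.dvd_of_dvd_pow h); omega

theorem complS_ok : (List.range 17).all (fun a => (List.range 11).all (fun b =>
    (List.range 8).all (fun c =>
      cond (Nat.ble (Nat.mul (Nat.mul (Nat.pow 2 a) (Nat.pow 3 b)) (Nat.pow 5 c)) 100000)
        (memB (Nat.mul (Nat.mul (Nat.pow 2 a) (Nat.pow 3 b)) (Nat.pow 5 c)) valsS) true))) =
    true := by decide +kernel

theorem mem_valsS {t : ℕ} (h1 : t ≤ 100000) (h2 : t ∈ Nat.smoothNumbers 7) : t ∈ valsS := by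
  obtain ⟨a, b, c, rfl⟩ := smooth7_form h2
  have pa : 0 < 2 ^ a := by positivity
  have pb : 0 < 3 ^ b := by positivity
  have pc : 0 < 5 ^ c := by positivity
  have ha : a < 17 := by
    by_contra hcon
    have q1 : 2 ^ 17 ≤ 2 ^ a := Nat.pow_le_pow_right (by norm_num) (by omega)
    have q2 : 2 ^ a ≤ 2 ^ a * 3 ^ b * 5 ^ c := by
      rw [mul_assoc]; exact Nat.le_mul_of_pos_right _ (by positivity)
    have : (2 : ℕ) ^ 17 = 131072 := by norm_num
    omega
  have hb : b < 11 := by
    by_contra hcon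
    have q1 : 3 ^ 11 ≤ 3 ^ b := Nat.pow_le_pow_right (by norm_num) (by omega)
    have q2 : 3 ^ b ≤ 2 ^ a * 3 ^ b * 5 ^ c := by
      rw [mul_comm (2 ^ a), mul_assoc]; exact Nat.le_mul_of_pos_right _ (by positivity)
    have : (3 : ℕ) ^ 11 = 177147 := by norm_num
    omega
  have hc : c < 8 := by
    by_contra hcon
    have q1 : 5 ^ 8 ≤ 5 ^ c := Nat.pow_le_pow_right (by norm_num) (by omega)
    have q2 : 5 ^ c ≤ 2 ^ a * 3 ^ b * 5 ^ c := Nat.le_mul_of_pos_left _ (by positivity)
    have : (5 : ℕ) ^ 8 = 390625 := by norm_num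
    omega
  have k1 := List.all_eq_true.1 complS_ok a (by simpa using ha)
  have k2 := List.all_eq_true.1 k1 b (by simpa using hb)
  have k3 := List.all_eq_true.1 k2 c (by simpa using hc)
  have k4 : Nat.ble (Nat.mul (Nat.mul (Nat.pow 2 a) (Nat.pow 3 b)) (Nat.pow 5 c)) 100000 = true :=
    Nat.ble_eq_true_of_le h1
  rw [k4, cond_true] at k3
  exact memB_iff.1 k3

/-- the check of one window `(lo, hi, B, g)` -/
def chkWin (w : ℕ × ℕ × ℕ × ℕ) : Bool :=
  cond (cond (Nat.ble 1 w.1) (cond (Nat.ble (Nat.succ w.1) w.2.1) (Nat.ble w.2.1 100000) false)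
      false)
    (cond (valsS.all (fun t => cond (Nat.ble t w.1) true (Nat.ble w.2.1 t)))
      (cond ((selT w.2.2.1 tabS).all (fun e => cond (Nat.ble e.1 w.1)
          (cond (Nat.ble w.2.1 (Nat.mul 7 e.1)) (le1 (Nat.land w.2.2.1 e.2)) false) false))
        (Nat.ble (Nat.add (valsS.filter (fun t => cond (Nat.ble t w.1)
            (Nat.ble (Nat.succ w.1) (Nat.mul 3 t)) false)).length w.2.2.2)
          (selT w.2.2.1 tabS).length) false) false) false

theorem chkWin_all : winT.all chkWin = true := by decide +kernel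

/-- consecutive windows -/
def chainW : ℕ → List (ℕ × ℕ × ℕ × ℕ) → Bool
  | _, [] => true
  | lo, w :: ws => cond (Nat.ble lo w.1) (chainW w.2.1 ws) false

theorem chainW_ok : chainW 0 winT = true := by decide +kernel

theorem le1_sound {x : ℕ} (h : le1 x = true) {j k : ℕ} (hj : x.testBit j = true)
    (hk : x.testBit k = true) : j = k := by
  unfold le1 at h
  cases h1 : Nat.beq x 0 with
  | true =>
    rw [Nat.eq_of_beq_eq_true h1] at hj
    simp at hj
  | false =>
    rw [h1, cond_false] at h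
    have h2 : x = 2 ^ Nat.log2 x := Nat.eq_of_beq_eq_true h
    rw [h2, Nat.testBit_two_pow] at hj hk
    simp only [decide_eq_true_eq] at hj hk
    omega

/-- the set of a window -/
def setW (B : ℕ) : Finset ℕ := ((selT B tabS).map (fun e => e.1)).toFinset

theorem chkWin_spec {w : ℕ × ℕ × ℕ × ℕ} (hw : w ∈ winT) :
    1 ≤ w.1 ∧ w.1 < w.2.1 ∧ w.2.1 ≤ 100000 ∧ (∀ t ∈ valsS, t ≤ w.1 ∨ w.2.1 ≤ t) ∧
    (∀ e ∈ selT w.2.2.1 tabS, e.1 ≤ w.1 ∧ w.2.1 ≤ 7 * e.1 ∧ le1 (w.2.2.1 &&& e.2) = true) ∧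
    (valsS.filter (fun t => cond (Nat.ble t w.1) (Nat.ble (Nat.succ w.1) (Nat.mul 3 t))
      false)).length + w.2.2.2 ≤ (selT w.2.2.1 tabS).length := by
  have h := List.all_eq_true.1 chkWin_all w hw
  unfold chkWin at h
  cases h1 : Nat.ble 1 w.1 with
  | false => rw [h1] at h; simp at h
  | true =>
  cases h2 : Nat.ble (Nat.succ w.1) w.2.1 with
  | false => rw [h1, h2] at h; simp at h
  | true =>
  cases h3 : Nat.ble w.2.1 100000 with
  | false => rw [h1, h2, h3] at h; simp at h
  | true =>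
  rw [h1, h2, h3] at h
  simp only [cond_true] at h
  cases h4 : valsS.all (fun t => cond (Nat.ble t w.1) true (Nat.ble w.2.1 t)) with
  | false => rw [h4] at h; simp at h
  | true =>
  rw [h4, cond_true] at h
  cases h5 : (selT w.2.2.1 tabS).all (fun e => cond (Nat.ble e.1 w.1)
          (cond (Nat.ble w.2.1 (Nat.mul 7 e.1)) (le1 (Nat.land w.2.2.1 e.2)) false) false) with
  | false => rw [h5] at h; simp at h
  | true =>
  rw [h5, cond_true] at h
  refine ⟨Nat.le_of_ble_eq_true h1, Nat.le_of_ble_eq_true h2, Nat.le_of_ble_eq_true h3, ?_, ?_,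
    Nat.le_of_ble_eq_true h⟩
  · intro t ht
    have h6 := List.all_eq_true.1 h4 t ht
    cases h7 : Nat.ble t w.1 with
    | true => exact Or.inl (Nat.le_of_ble_eq_true h7)
    | false =>
      rw [h7, cond_false] at h6
      exact Or.inr (Nat.le_of_ble_eq_true h6)
  · intro e he
    have h6 := List.all_eq_true.1 h5 e he
    cases h7 : Nat.ble e.1 w.1 with
    | false => rw [h7] at h6; simp at h6
    | true =>
    cases h8 : Nat.ble w.2.1 (Nat.mul 7 e.1) with
    | false => rw [h7, h8] at h6; simp at h6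
    | true =>
    rw [h7, h8, cond_true, cond_true] at h6
    exact ⟨Nat.le_of_ble_eq_true h7, Nat.le_of_ble_eq_true h8, h6⟩

theorem setW_mem {B t : ℕ} (h : t ∈ setW B) : ∃ e ∈ selT B tabS, e.1 = t := by
  unfold setW at h
  rw [List.mem_toFinset, List.mem_map] at h
  exact h

theorem sel_valsS {B : ℕ} {e : ℕ × ℕ} (h : e ∈ selT B tabS) : e.1 ∈ valsS := by
  unfold valsS
  exact List.mem_map_of_mem ((selT_sublist tabS B).subset h)

theorem setW_card (B : ℕ) : (setW B).card = (selT B tabS).length := by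
  unfold setW
  rw [List.toFinset_card_of_nodup, List.length_map]
  have : ((selT B tabS).map (fun e => e.1)).Sublist valsS :=
    List.Sublist.map _ (selT_sublist tabS B)
  exact this.nodup valsS_nodup

theorem setW_adm {w : ℕ × ℕ × ℕ × ℕ} (hw : w ∈ winT) : Admissible (setW w.2.2.1) := by
  obtain ⟨hw1, hw2, hw3, hw4, hw5, hw6⟩ := chkWin_spec hw
  intro a ha b hb c hc hab hac hbc hd
  obtain ⟨ea, hea, rfl⟩ := setW_mem ha
  obtain ⟨eb, heb, rfl⟩ := setW_mem hb
  obtain ⟨ec, hec, rfl⟩ := setW_mem hc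
  obtain ⟨j, hj, hjB⟩ := selT_mem _ _ _ heb
  obtain ⟨k, hk, hkB⟩ := selT_mem _ _ _ hec
  have h1 := hw5 ea hea
  have h2 := hw5 eb heb
  have h3 := hw5 ec hec
  have hcm := List.all_eq_true.1 compl_masks ea ((selT_sublist tabS _).subset hea)
  have hj2 := complM_sound _ _ _ hcm j eb hj hd.1 hab.symm (by omega)
  have hk2 := complM_sound _ _ _ hcm k ec hk hd.2 hac.symm (by omega)
  have hjk : j = k := by
    apply le1_sound h1.2.2
    · rw [Nat.testBit_and, hjB, hj2]; rfl
    · rw [Nat.testBit_and, hkB, hk2]; rfl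
  subst hjk
  rw [hj] at hk
  apply hbc
  rw [Option.some.inj hk]

/-- the standard set of the window `(q / 3, q]` -/
def baseS (q : ℕ) : Finset ℕ := (Nat.smoothNumbersUpTo q 7).filter (fun t => q < 3 * t)

theorem baseS_adm (q : ℕ) : Admissible (baseS q) := by
  intro a ha b hb c hc hab hac hbc hd
  unfold baseS at ha hb hc
  rw [Finset.mem_filter, mem_smoothUpTo] at ha hb hc
  have key : ∀ b, b ≤ q → a ≠ b → b ≠ 0 → a ∣ b → b = 2 * a := by
    intro b hb hab hb0 hd
    obtain ⟨j, rfl⟩ := hd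
    have hj : j < 3 := by
      by_contra hcon
      have : a * 3 ≤ a * j := Nat.mul_le_mul_left a (by omega)
      omega
    interval_cases j
    · simp at hb0
    · simp at hab
    · ring
  have e1 := key b hb.1.1 hab (Nat.ne_zero_of_mem_smoothNumbers hb.1.2) hd.1
  have e2 := key c hc.1.1 hac (Nat.ne_zero_of_mem_smoothNumbers hc.1.2) hd.2
  exact hbc (e1.trans e2.symm)

theorem baseS_card {w : ℕ × ℕ × ℕ × ℕ} (hw : w ∈ winT) {q : ℕ} (h1 : w.1 ≤ q) (h2 : q < w.2.1) :
    (baseS q).card + w.2.2.2 ≤ (setW w.2.2.1).card := by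
  classical
  obtain ⟨hw1, hw2, hw3, hw4, hw5, hw6⟩ := chkWin_spec hw
  rw [setW_card]
  refine le_trans (Nat.add_le_add_right ?_ _) hw6
  refine le_trans (Finset.card_le_card (t := (valsS.filter (fun t => cond (Nat.ble t w.1)
    (Nat.ble (Nat.succ w.1) (Nat.mul 3 t)) false)).toFinset) ?_) (List.toFinset_card_le _)
  intro t ht
  unfold baseS at ht
  rw [Finset.mem_filter, mem_smoothUpTo] at ht
  have hv : t ∈ valsS := mem_valsS (by omega) ht.1.2
  rw [List.mem_toFinset, List.mem_filter]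
  refine ⟨hv, ?_⟩
  have h3 : t ≤ w.1 := by
    rcases hw4 t hv with h | h
    · exact h
    · omega
  have h4 : Nat.ble t w.1 = true := Nat.ble_eq_true_of_le h3
  have h5 : Nat.ble (Nat.succ w.1) (Nat.mul 3 t) = true :=
    Nat.ble_eq_true_of_le (by change w.1 + 1 ≤ 3 * t; omega)
  rw [h4, h5]
  rfl

open Classical in
/-- the chosen family -/
noncomputable def BB (q : ℕ) : Finset ℕ :=
  if h : ∃ w ∈ winT, w.1 ≤ q ∧ q < w.2.1 then setW h.choose.2.2.1 else baseS q

theorem BB_sub (q : ℕ) : BB q ⊆ Nat.smoothNumbersUpTo q 7 := by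
  classical
  unfold BB
  split_ifs with h
  · obtain ⟨hw, h1, h2⟩ := h.choose_spec
    intro t ht
    obtain ⟨e, he, rfl⟩ := setW_mem ht
    rw [mem_smoothUpTo]
    exact ⟨((chkWin_spec hw).2.2.2.2.1 e he).1.trans h1, (valsS_mem (sel_valsS he)).2⟩
  · exact Finset.filter_subset _ _

theorem BB_adm (q : ℕ) : Admissible (BB q) := by
  classical
  unfold BB
  split_ifs with h
  · exact setW_adm h.choose_spec.1
  · exact baseS_adm q

theorem BB_win (q : ℕ) : ∀ t ∈ BB q, q < 7 * t := by
  classical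
  unfold BB
  split_ifs with h
  · obtain ⟨hw, h1, h2⟩ := h.choose_spec
    intro t ht
    obtain ⟨e, he, rfl⟩ := setW_mem ht
    have := ((chkWin_spec hw).2.2.2.2.1 e he).2.1
    omega
  · intro t ht
    unfold baseS at ht
    rw [Finset.mem_filter] at ht
    omega

/-- the gain at `q` -/
def gsum (l : List (ℕ × ℕ × ℕ × ℕ)) (q : ℕ) : ℕ :=
  (l.map (fun w => if w.1 ≤ q ∧ q < w.2.1 then w.2.2.2 else 0)).sum

theorem gsum_zero {l : List (ℕ × ℕ × ℕ × ℕ)} {q : ℕ}
    (h : ∀ w ∈ l, ¬ (w.1 ≤ q ∧ q < w.2.1)) : gsum l q = 0 := by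
  induction l with
  | nil => rfl
  | cons u l ih =>
    unfold gsum
    rw [List.map_cons, List.sum_cons, if_neg (h u (by simp))]
    have := ih (fun w hw => h w (by simp [hw]))
    unfold gsum at this
    omega

theorem chainW_lo : ∀ (l : List (ℕ × ℕ × ℕ × ℕ)) (lo : ℕ), chainW lo l = true →
    (∀ w ∈ l, w.1 < w.2.1) → ∀ w ∈ l, lo ≤ w.1
  | [], _, _, _, w, hw => by simp at hw
  | u :: l, lo, h, hlt, w, hw => by
    unfold chainW at h
    cases h1 : Nat.ble lo u.1 with
    | false => rw [h1] at h; simp at h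
    | true =>
      rw [h1, cond_true] at h
      have h2 := Nat.le_of_ble_eq_true h1
      rw [List.mem_cons] at hw
      rcases hw with rfl | hw
      · exact h2
      · have := chainW_lo l _ h (fun w hw => hlt w (by simp [hw])) w hw
        have := hlt u (by simp)
        omega

theorem gsum_eq : ∀ (l : List (ℕ × ℕ × ℕ × ℕ)) (lo : ℕ), chainW lo l = true →
    (∀ w ∈ l, w.1 < w.2.1) → ∀ (q : ℕ), ∀ w ∈ l, w.1 ≤ q → q < w.2.1 → gsum l q = w.2.2.2
  | [], _, _, _, _, w, hw, _, _ => by simp at hw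
  | u :: l, lo, h, hlt, q, w, hw, h1, h2 => by
    unfold chainW at h
    cases h3 : Nat.ble lo u.1 with
    | false => rw [h3] at h; simp at h
    | true =>
      rw [h3, cond_true] at h
      have hlt' : ∀ w ∈ l, w.1 < w.2.1 := fun w hw => hlt w (by simp [hw])
      have hlo := chainW_lo l _ h hlt'
      rw [List.mem_cons] at hw
      have e : gsum (u :: l) q = (if u.1 ≤ q ∧ q < u.2.1 then u.2.2.2 else 0) + gsum l q := by
        unfold gsum
        rw [List.map_cons, List.sum_cons]
      rw [e]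
      rcases hw with rfl | hw
      · rw [if_pos ⟨h1, h2⟩, gsum_zero]
        · rfl
        · intro v hv hc
          have := hlo v hv
          omega
      · rw [gsum_eq l _ h hlt' q w hw h1 h2, if_neg]
        · omega
        · intro hc
          have := hlo w hw
          omega

theorem winT_lt : ∀ w ∈ winT, w.1 < w.2.1 := fun w hw => (chkWin_spec hw).2.1

theorem BB_card (q : ℕ) : (baseS q).card + gsum winT q ≤ (BB q).card := by
  classical
  unfold BB
  split_ifs with h
  · obtain ⟨hw, h1, h2⟩ := h.choose_spec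
    rw [gsum_eq winT 0 chainW_ok winT_lt q _ hw h1 h2]
    exact baseS_card hw h1 h2
  · rw [gsum_zero (fun w hw hc => h ⟨w, hw, hc⟩)]
    omega

theorem sum_win (y n lo hi : ℕ) (h0 : 0 < lo) (h1 : lo < hi) :
    (∑ m ∈ (Icc 1 n).filter (Rough y), if lo ≤ n / m ∧ n / m < hi then 1 else 0) +
      RR y (n / hi) = RR y (n / lo) := by
  rw [← sum_one_le y n lo h0, ← sum_one_le y n hi (by omega), ← Finset.sum_add_distrib]
  apply Finset.sum_congr rfl
  intro m _
  by_cases h2 : hi ≤ n / m
  · rw [if_neg (by omega), if_pos h2, if_pos (by omega)]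
  · by_cases h3 : lo ≤ n / m
    · rw [if_pos (by omega), if_neg h2, if_pos h3]
    · rw [if_neg (by omega), if_neg h2, if_neg h3]

theorem sum_gsum (y n : ℕ) (l : List (ℕ × ℕ × ℕ × ℕ))
    (hl : ∀ w ∈ l, 1 ≤ w.1 ∧ w.1 < w.2.1) :
    ((∑ m ∈ (Icc 1 n).filter (Rough y), gsum l (n / m) : ℕ) : ℝ) =
      (l.map (fun w => (w.2.2.2 : ℝ) * ((RR y (n / w.1) : ℝ) - RR y (n / w.2.1)))).sum := by
  induction l with
  | nil => simp [gsum]
  | cons w l ih =>
    rw [List.map_cons, List.sum_cons, ← ih (fun v hv => hl v (by simp [hv]))]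
    have h := hl w (by simp)
    have e : ∀ q, gsum (w :: l) q = w.2.2.2 * (if w.1 ≤ q ∧ q < w.2.1 then 1 else 0) +
        gsum l q := by
      intro q
      unfold gsum
      rw [List.map_cons, List.sum_cons]
      congr 1
      split_ifs <;> simp
    simp only [e]
    rw [Finset.sum_add_distrib, ← Finset.mul_sum]
    push_cast
    congr 1
    congr 1
    have h2 := sum_win y n w.1 w.2.1 h.1 h.2
    have h3 : ((∑ m ∈ (Icc 1 n).filter (Rough y),
        if w.1 ≤ n / m ∧ n / m < w.2.1 then 1 else 0 : ℕ) : ℝ) + RR y (n / w.2.1) =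
        RR y (n / w.1) := by exact_mod_cast h2
    push_cast at h3
    linarith

theorem gsum_tendsto (y : ℕ) (l : List (ℕ × ℕ × ℕ × ℕ))
    (hl : ∀ w ∈ l, 1 ≤ w.1 ∧ w.1 < w.2.1) :
    Tendsto (fun n : ℕ => (l.map (fun w => (w.2.2.2 : ℝ) *
      ((RR y (n / w.1) : ℝ) - RR y (n / w.2.1)))).sum / n) atTop
      (𝓝 (dl y * (l.map (fun w => (w.2.2.2 : ℝ) * (1 / (w.1 : ℝ) - 1 / (w.2.1 : ℝ)))).sum)) := by
  induction l with
  | nil => simp
  | cons w l ih =>
    simp only [List.map_cons, List.sum_cons]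
    have h := hl w (by simp)
    have h1 := RR_div_tendsto' y w.1 (by omega)
    have h2 := RR_div_tendsto' y w.2.1 (by omega)
    have h3 := ((h1.sub h2).const_mul (w.2.2.2 : ℝ)).add (ih (fun v hv => hl v (by simp [hv])))
    have e2 : dl y * ((w.2.2.2 : ℝ) * (1 / (w.1 : ℝ) - 1 / (w.2.1 : ℝ)) +
        (l.map (fun w => (w.2.2.2 : ℝ) * (1 / (w.1 : ℝ) - 1 / (w.2.1 : ℝ)))).sum) =
        (w.2.2.2 : ℝ) * (dl y / w.1 - dl y / w.2.1) +
        dl y * (l.map (fun w => (w.2.2.2 : ℝ) * (1 / (w.1 : ℝ) - 1 / (w.2.1 : ℝ)))).sum := by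
      ring
    rw [e2]
    refine h3.congr (fun n => ?_)
    ring

theorem sum_floorW : (winT.map (fun w =>
    1000000000000 * w.2.2.2 * (w.2.1 - w.1) / (w.1 * w.2.1))).sum = 23495568675 := by
  decide +kernel

theorem floor_win_le (l : List (ℕ × ℕ × ℕ × ℕ)) (hl : ∀ w ∈ l, 1 ≤ w.1 ∧ w.1 < w.2.1) (N : ℕ) :
    (((l.map (fun w => N * w.2.2.2 * (w.2.1 - w.1) / (w.1 * w.2.1))).sum : ℕ) : ℝ) ≤
      N * (l.map (fun w => (w.2.2.2 : ℝ) * (1 / (w.1 : ℝ) - 1 / (w.2.1 : ℝ)))).sum := by
  induction l with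
  | nil => simp
  | cons w l ih =>
    simp only [List.map_cons, List.sum_cons]
    push_cast
    rw [mul_add]
    have h := hl w (by simp)
    have h1 := ih (fun v hv => hl v (by simp [hv]))
    have p1 : (0 : ℝ) < w.1 := by exact_mod_cast h.1
    have p2 : (0 : ℝ) < w.2.1 := by
      have : 0 < w.2.1 := by omega
      exact_mod_cast this
    have h2 : ((N * w.2.2.2 * (w.2.1 - w.1) / (w.1 * w.2.1) : ℕ) : ℝ) ≤
        N * ((w.2.2.2 : ℝ) * (1 / (w.1 : ℝ) - 1 / (w.2.1 : ℝ))) := by
      refine Nat.cast_div_le.trans (le_of_eq ?_)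
      push_cast [Nat.cast_sub h.2.le]
      field_simp
    push_cast at h1
    exact add_le_add h2 h1

theorem lower_limit {L : ℝ} (hL : Tendsto (fun n : ℕ => (ff n : ℝ) / n) atTop (𝓝 L)) :
    67293 / 100000 ≤ L := by
  have hw : ∀ w ∈ winT, 1 ≤ w.1 ∧ w.1 < w.2.1 := fun w hw =>
    ⟨(chkWin_spec hw).1, (chkWin_spec hw).2.1⟩
  have h1 := gsum_tendsto 7 winT hw
  have h2 := h1.const_add (2 / 3 : ℝ)
  have h3 : 2 / 3 + dl 7 * (winT.map (fun w => (w.2.2.2 : ℝ) *
      (1 / (w.1 : ℝ) - 1 / (w.2.1 : ℝ)))).sum ≤ L := by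
    apply le_of_tendsto_of_tendsto h2 hL
    filter_upwards [eventually_ge_atTop 1] with n hn
    have hn' : (0 : ℝ) < n := by exact_mod_cast hn
    have h4 := fib_lower 7 n BB BB_sub BB_adm BB_win
    have h5 : ∑ m ∈ (Icc 1 n).filter (Rough 7), ((baseS (n / m)).card + gsum winT (n / m)) ≤
        ff n := (Finset.sum_le_sum fun m _ => BB_card (n / m)).trans h4
    rw [Finset.sum_add_distrib] at h5
    have h6 : ∑ m ∈ (Icc 1 n).filter (Rough 7), (baseS (n / m)).card = n - n / 3 := fib_base 7 n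
    rw [h6] at h5
    have h7 : ((n - n / 3 : ℕ) : ℝ) + ((∑ m ∈ (Icc 1 n).filter (Rough 7), gsum winT (n / m) : ℕ) : ℝ)
        ≤ ff n := by exact_mod_cast h5
    rw [sum_gsum 7 n winT hw] at h7
    have h8 : (2 / 3 : ℝ) * n ≤ ((n - n / 3 : ℕ) : ℝ) := by
      have : 2 * n ≤ 3 * (n - n / 3) := by omega
      have h9 : (2 : ℝ) * n ≤ 3 * ((n - n / 3 : ℕ) : ℝ) := by exact_mod_cast this
      linarith
    rw [← sub_nonneg]
    have e : (ff n : ℝ) / n - (2 / 3 + (winT.map (fun w => (w.2.2.2 : ℝ) *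
        ((RR 7 (n / w.1) : ℝ) - RR 7 (n / w.2.1)))).sum / n) =
        (ff n - (2 / 3 * n + (winT.map (fun w => (w.2.2.2 : ℝ) *
        ((RR 7 (n / w.1) : ℝ) - RR 7 (n / w.2.1)))).sum)) / n := by
      field_simp
    rw [e]
    apply div_nonneg _ hn'.le
    linarith
  have h4 := floor_win_le winT hw 1000000000000
  rw [sum_floorW] at h4
  rw [dl_seven] at h3
  push_cast at h4
  linarith

end Pool.Agent.H822K
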